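import Pool.Agent.Q283.TC.Frob
import Pool.Agent.Q283.TW.Field

/-!
# A Galois extension of the rationals with given cube roots of Eisenstein integers and a root of
unity
-/

set_option autoImplicit false
set_option linter.style.haveILetI false

namespace T2h16.TT

open Polynomial
open Pool.Agent.Y692.QS (Ei w nr hom hom_apply mul_star star_re star_im)

theorem deg6 (a b : ℚ) : (X ^ 6 - C a * X ^ 3 + C b : ℚ[X]).natDegree = 6 := by
  compute_degree!

theorem exists_field (T : Finset Ei) (k : ℕ) : ∃ (L : Type) (_ : Field L)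
    (_ : NumberField L) (_ : IsGalois ℚ L) (ζ : L) (z : L) (hz : z * z = -1 - z)
    (s : Ei → L), IsPrimitiveRoot ζ (3 ^ (k + 1)) ∧ z = ζ ^ 3 ^ k ∧
      ∀ q ∈ T, (s q) ^ 3 = hom z hz q := by
  classical
  set n := 3 ^ (k + 1) with hn
  have hn0 : 0 < n := by positivity
  haveI : NeZero n := ⟨hn0.ne'⟩
  set h : ℚ[X] := cyclotomic n ℚ with hh
  set g : Ei → ℚ[X] := fun q => X ^ 6 - C ((2 * q.re - q.im : ℤ) : ℚ) * X ^ 3 +
    C ((nr q : ℤ) : ℚ) with hg
  set f : ℚ[X] := h * ∏ a ∈ T, g a with hf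
  have hgd : ∀ a, (g a).natDegree = 6 := fun a => deg6 _ _
  have hh0 : h ≠ 0 := cyclotomic_ne_zero n ℚ
  have hg0 : ∀ a, g a ≠ 0 := by intro a h0; have := hgd a; rw [h0] at this; simp at this
  have hf0 : f ≠ 0 := mul_ne_zero hh0 (Finset.prod_ne_zero_iff.2 fun a _ => hg0 a)
  obtain ⟨L, hL, hN, hG, hsp⟩ := Q283.TW.gen_split_rat f
  have hfm : f.map (algebraMap ℚ L) ≠ 0 := by
    rwa [Ne, Polynomial.map_eq_zero]
  have key : ∀ u : L[X], u ∣ f.map (algebraMap ℚ L) → u.natDegree ≠ 0 →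
      ∃ x : L, u.eval x = 0 := by
    intro u hu hd
    have h1 := hsp.of_dvd hfm hu
    refine h1.exists_eval_eq_zero ?_
    intro h2
    exact hd (natDegree_eq_of_degree_eq_some h2)
  obtain ⟨ζ, hζ0⟩ := key (h.map (algebraMap ℚ L)) (Polynomial.map_dvd _ (Dvd.intro _ rfl))
    (by rw [natDegree_map, hh, natDegree_cyclotomic]; exact (Nat.totient_pos.2 hn0).ne')
  have hζ : IsPrimitiveRoot ζ n := by
    rw [hh, map_cyclotomic] at hζ0
    haveI : NeZero ((n : ℕ) : L) := ⟨Nat.cast_ne_zero.2 hn0.ne'⟩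
    exact isRoot_cyclotomic_iff.1 hζ0
  have hz3 : IsPrimitiveRoot (ζ ^ 3 ^ k) 3 := by
    refine hζ.pow hn0 ?_
    rw [hn, pow_succ]
  have hz : (ζ ^ 3 ^ k) * (ζ ^ 3 ^ k) = -1 - (ζ ^ 3 ^ k) := by
    have h4 := hz3.geom_sum_eq_zero (by norm_num)
    rw [Finset.sum_range_succ, Finset.sum_range_succ, Finset.sum_range_one, pow_zero, pow_one] at h4
    linear_combination h4
  have hs : ∀ a : Ei, ∃ x : L, a ∈ T → x ^ 3 = hom (ζ ^ 3 ^ k) hz a := by
    intro a
    by_cases ha : a ∈ T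
    · have hdv : (X ^ 3 - C (hom (ζ ^ 3 ^ k) hz a) : L[X]) ∣ (g a).map (algebraMap ℚ L) := by
        refine Dvd.intro (X ^ 3 - C (hom (ζ ^ 3 ^ k) hz (star a))) ?_
        have e1 : hom (ζ ^ 3 ^ k) hz a + hom (ζ ^ 3 ^ k) hz (star a) =
            ((2 * a.re - a.im : ℤ) : L) := by
          rw [hom_apply, hom_apply, star_re, star_im]
          push_cast
          ring
        have e2 : hom (ζ ^ 3 ^ k) hz a * hom (ζ ^ 3 ^ k) hz (star a) = ((nr a : ℤ) : L) := by
          rw [← map_mul, mul_star, map_intCast]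
        have e3 : (g a).map (algebraMap ℚ L) =
            X ^ 6 - C (hom (ζ ^ 3 ^ k) hz a + hom (ζ ^ 3 ^ k) hz (star a)) * X ^ 3 +
              C (hom (ζ ^ 3 ^ k) hz a * hom (ζ ^ 3 ^ k) hz (star a)) := by
          rw [e1, e2, hg]
          simp
        rw [e3, C_add, C_mul]
        ring
      obtain ⟨x, hx⟩ := key (X ^ 3 - C (hom (ζ ^ 3 ^ k) hz a)) (hdv.trans (Polynomial.map_dvd _
        ((Finset.dvd_prod_of_mem g ha).mul_left _))) (by rw [natDegree_X_pow_sub_C]; norm_num)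
      refine ⟨x, fun _ => ?_⟩
      simp at hx
      linear_combination hx
    · exact ⟨0, fun h => absurd h ha⟩
  choose s hs' using hs
  exact ⟨L, hL, hN, hG, ζ, ζ ^ 3 ^ k, hz, s, hζ, rfl, fun a ha => hs' a ha⟩

end T2h16.TT
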