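import Pool.Agent.T2h16.TT.Gal
import Pool.Agent.T2h16.TT.Field
import Pool.Agent.Q283.TC.Main

/-!
# The joint law of the cubic residue symbols of Eisenstein primes in a residue class
-/

set_option autoImplicit false
set_option linter.unusedSectionVars false
set_option linter.style.haveILetI false

namespace T2h16.TT

open NumberField Filter Topology Finset Pool.Agent.W401.Cheb
open Pool.Agent.Y692.QS (Ei w nr hom hom_apply hom_w w_cube mul_star nr_nonneg nr_zero_iff nr_mul)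
open Pool.Agent.Y715.T.Rec (cs nn)
open Pool.Agent.Y715.T.RecG (Pq)
open Q283.TC (NT NT_tendsto FT dens_one exists_above ar ar_of HH mem_HH frob_cube pq_eq_of_dvd
  hom_inj0 mod_three three_ne)

section
variable {L : Type} [Field L] [NumberField L] [IsGalois ℚ L] {P : Finset Ei} {k : ℕ}
  (D : DatC L P k)
variable {p : ℕ} [hp : Fact p.Prime]

theorem DatC.prim_im (h3 : p ≠ 3) (φ : 𝓞 L →+* AlgebraicClosure (ZMod p)) :
    IsPrimitiveRoot (φ D.ζ) (3 ^ (k + 1)) := by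
  have hn : 0 < 3 ^ (k + 1) := by positivity
  have h1 := D.hζ.isRoot_cyclotomic hn
  have h4 := h1.map (f := φ)
  rw [Polynomial.map_cyclotomic] at h4
  have h30 := three_ne (p := p) h3
  haveI : NeZero ((3 ^ (k + 1) : ℕ) : AlgebraicClosure (ZMod p)) := ⟨by
    push_cast
    exact pow_ne_zero _ h30⟩
  exact Polynomial.isRoot_cyclotomic_iff.1 h4

/-- Frobenius and the root of unity -/
theorem DatC.frob_zeta {φ : 𝓞 L →+* AlgebraicClosure (ZMod p)} {g : Gal(L/ℚ)}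
    (hφ : HasFrob p φ g) (h3 : p ≠ 3) : g ∈ KK D.ζ ↔ (3 : ℤ) ^ (k + 1) ∣ (p : ℤ) - 1 := by
  have hpr := D.prim_im h3 φ
  have h0 : φ D.ζ ≠ 0 := ne_zero_of_prim (by positivity) hpr
  have hp1 := hp.out.one_lt.le
  have hfr := hφ D.ζ
  have hcast : (3 : ℤ) ^ (k + 1) ∣ (p : ℤ) - 1 ↔ 3 ^ (k + 1) ∣ p - 1 := by
    rw [← Int.natCast_dvd_natCast]
    push_cast [hp1]
    rfl
  rw [hcast, mem_KK]
  constructor
  · intro h
    rw [h] at hfr
    apply hpr.dvd_of_pow_eq_one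
    have e : φ D.ζ ^ p = φ D.ζ ^ (p - 1) * φ D.ζ := by
      rw [← pow_succ]
      congr 1
      omega
    rw [e] at hfr
    exact mul_right_cancel₀ h0 (by rw [← hfr, one_mul])
  · rintro ⟨c, hc⟩
    obtain ⟨a, ha1, ha⟩ := D.exists_pow g
    have e : p = 3 ^ (k + 1) * c + 1 := by omega
    have h2 : φ D.ζ ^ p = φ D.ζ := by
      have h5 : φ D.ζ ^ (3 ^ (k + 1) * c + 1) = φ D.ζ := by
        rw [pow_add, pow_mul, hpr.pow_eq_one, one_pow, one_mul, pow_one]
      rwa [← e] at h5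
    rw [h2, ha, map_pow] at hfr
    have h4 : φ D.ζ ^ (a - 1) = 1 := by
      have e2 : φ D.ζ ^ a = φ D.ζ ^ (a - 1) * φ D.ζ := by
        rw [← pow_succ]
        congr 1
        omega
      rw [e2] at hfr
      exact mul_right_cancel₀ h0 (by rw [hfr, one_mul])
    obtain ⟨d, hd⟩ := hpr.dvd_of_pow_eq_one _ h4
    have e3 : a = 3 ^ (k + 1) * d + 1 := by omega
    rw [ha, e3, pow_add, pow_mul, D.hζ.pow_eq_one, one_pow, one_mul, pow_one]

end

section
variable {L : Type} [Field L] [NumberField L] [IsGalois ℚ L] {P : Finset Ei} {k : ℕ}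
  (D : DatC L P k) (hk : 1 ≤ k) (hI : Ind P)

/-- the Frobenius set of a predicate on the symbols -/
def DatC.CC (Q : (P → ZMod 3) → Prop) : Set Gal(L/ℚ) :=
  {g | ∃ h : g ∈ KK D.ζ, Q (Multiplicative.toAdd (D.Th hI ⟨g, h⟩))}

include hk hI in
theorem DatC.dens (Q : (P → ZMod 3) → Prop) (T : Ei → Prop)
    (hT : ∀ p : ℕ, p.Prime → p ≠ 3 → ∀ π, Pq π → nr π = p → (∀ q ∈ P, ¬ π ∣ q) →
      (T π ↔ (3 : ℤ) ^ (k + 1) ∣ nr π - 1 ∧ Q (fun q : P => cs π q))) :
    Tendsto (fun X : ℕ => (NT T X : ℝ) / (Nat.primeCounting X : ℝ)) atTop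
      (𝓝 (2 * (Nat.card (KK D.ζ) : ℝ) / (Nat.card Gal(L/ℚ) : ℝ) *
        ((Nat.card {x : P → ZMod 3 // Q x} : ℝ) / 3 ^ P.card))) := by
  apply NT_tendsto
  have hD0 : 0 < 3 * ∏ q ∈ P, (nr q).natAbs := by
    have : 0 < ∏ q ∈ P, (nr q).natAbs := by
      apply Finset.prod_pos
      intro q hq
      have h1 : nr q ≠ 0 := fun h => hI.n0 q hq (nr_zero_iff.1 h)
      omega
    omega
  have h1 := dens_one D.hZ (D.CC hI Q) T (3 * ∏ q ∈ P, (nr q).natAbs) hD0 (by
    intro p hp hpD φ g hφ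
    have h3 : p ≠ 3 := by
      rintro rfl
      exact hpD (dvd_mul_right _ _)
    have hpP : ∀ q ∈ P, ¬ p ∣ (nr q).natAbs := by
      intro q hq hd
      exact hpD ((hd.trans (Finset.dvd_prod_of_mem
        (fun q : Ei => (nr q).natAbs) hq)).mul_left _)
    have hdiv : ∀ π : Ei, nr π = p → ∀ q ∈ P, ¬ π ∣ q := by
      rintro π hn q hq ⟨c, rfl⟩
      apply hpP _ hq
      rw [nr_mul, hn, Int.natAbs_mul, Int.natAbs_natCast]
      exact dvd_mul_right _ _
    have key : ∀ (π : Ei), Pq π → nr π = p → φ (hom D.Z D.hZ π) = 0 →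
        ∀ hg : g ∈ KK D.ζ, (T π ↔ Q (Multiplicative.toAdd (D.Th hI ⟨g, hg⟩))) := by
      intro π h4 h5 h6 hg
      rw [hT p hp.out h3 π h4 h5 (hdiv π h5)]
      have e1 : (fun q : P => cs π q) = fun q : P => ar D.Z g (D.s (q : Ei)) := by
        funext q
        symm
        apply ar_of D.hZ (s0 D.toDat hI q.2)
        exact frob_cube D.hZ hφ h3 (D.le hg) h4.prime h5 h6 (D.hs q q.2) (hdiv π h5 q q.2)
      rw [e1, h5, and_iff_right ((D.frob_zeta hφ h3).1 hg)]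
      exact Iff.rfl
    constructor
    · rintro ⟨hg, hQ⟩
      have hp3 : p % 3 = 1 := by
        have h4 := (D.frob_zeta hφ h3).1 hg
        have h5 : (3 : ℤ) ∣ (p : ℤ) - 1 := by
          refine dvd_trans ?_ h4
          exact dvd_pow_self _ (by omega)
        omega
      obtain ⟨π, h4, h5, h6⟩ : ∃ π, Pq π ∧ nr π = p ∧ φ (hom D.Z D.hZ π) = 0 :=
        exists_above D.hZ h3 hp3
      exact ⟨π, h4, h5, h6, (key π h4 h5 h6 hg).2 hQ⟩
    · rintro ⟨π, h4, h5, h6, h7⟩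
      have hg : g ∈ KK D.ζ := by
        rw [D.frob_zeta hφ h3, ← h5]
        exact ((hT p hp.out h3 π h4 h5 (hdiv π h5)).1 h7).1
      exact ⟨hg, (key π h4 h5 h6 hg).1 h7⟩)
  have h2 : (Nat.card (D.CC hI Q) : ℝ) =
      (Nat.card {g : KK D.ζ // Q (Multiplicative.toAdd (D.Th hI g))} : ℝ) := by
    congr 1
    refine Nat.card_congr
      { toFun := fun x => ⟨⟨x.1, x.2.1⟩, x.2.2⟩
        invFun := fun x => ⟨x.1.1, x.1.2, x.2⟩
        left_inv := fun x => rfl
        right_inv := fun x => rfl }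
  have h3 := D.ratio hk hI Q
  have hHpos : (0 : ℝ) < Nat.card (KK D.ζ) := by
    have := Nat.card_pos (α := KK D.ζ)
    exact_mod_cast this
  have h4 : (Nat.card {g : KK D.ζ // Q (Multiplicative.toAdd (D.Th hI g))} : ℝ) =
      (Nat.card {x : P → ZMod 3 // Q x} : ℝ) / 3 ^ P.card * (Nat.card (KK D.ζ) : ℝ) := by
    rw [← h3]
    field_simp
  rw [h2, h4] at h1
  convert h1 using 2
  ring

include D hk hI in
/-- **The proportion among the primary primes with norm `1` modulo `3 ^ (k + 1)`.** -/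
theorem DatC.prop (Q : (P → ZMod 3) → Prop) (T : Ei → Prop)
    (hT : ∀ p : ℕ, p.Prime → p ≠ 3 → ∀ π, Pq π → nr π = p → (∀ q ∈ P, ¬ π ∣ q) →
      (T π ↔ (3 : ℤ) ^ (k + 1) ∣ nr π - 1 ∧ Q (fun q : P => cs π q))) :
    Tendsto (fun X : ℕ => (NT T X : ℝ) /
      (NT (fun π => (3 : ℤ) ^ (k + 1) ∣ nr π - 1) X : ℝ)) atTop
      (𝓝 ((Nat.card {x : P → ZMod 3 // Q x} : ℝ) / 3 ^ P.card)) := by
  have h1 := D.dens hk hI Q T hT
  have h2 := D.dens hk hI (fun _ => True) (fun π => (3 : ℤ) ^ (k + 1) ∣ nr π - 1)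
    (fun p _ _ π _ _ _ => by rw [and_true])
  have h4 : Nat.card {x : P → ZMod 3 // True} = 3 ^ P.card := by
    have : Nat.card (P → ZMod 3) = 3 ^ P.card := by
      rw [Nat.card_fun]
      simp
    rw [← this]
    exact Nat.card_congr (Equiv.subtypeUnivEquiv fun _ => trivial)
  rw [h4] at h2
  have h5 : (((3 ^ P.card : ℕ) : ℝ) / 3 ^ P.card) = 1 := by
    push_cast
    exact div_self (by positivity)
  rw [h5, mul_one] at h2
  have hK : (0 : ℝ) < Nat.card (KK D.ζ) := by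
    have := Nat.card_pos (α := KK D.ζ)
    exact_mod_cast this
  have hG : (0 : ℝ) < Nat.card Gal(L/ℚ) := by
    have := Nat.card_pos (α := Gal(L/ℚ))
    exact_mod_cast this
  have hpos : (0 : ℝ) < 2 * (Nat.card (KK D.ζ) : ℝ) / (Nat.card Gal(L/ℚ) : ℝ) := by positivity
  have h6 := h1.div h2 hpos.ne'
  have h7 : 2 * (Nat.card (KK D.ζ) : ℝ) / (Nat.card Gal(L/ℚ) : ℝ) *
      ((Nat.card {x : P → ZMod 3 // Q x} : ℝ) / 3 ^ P.card) /
        (2 * (Nat.card (KK D.ζ) : ℝ) / (Nat.card Gal(L/ℚ) : ℝ)) =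
      (Nat.card {x : P → ZMod 3 // Q x} : ℝ) / 3 ^ P.card := by
    field_simp
  rw [h7] at h6
  refine h6.congr' ?_
  filter_upwards [eventually_ge_atTop 2] with X hX
  have hpc : (Nat.primeCounting X : ℝ) ≠ 0 := by
    have : 0 < Nat.primeCounting X := by
      have h := Nat.monotone_primeCounting hX
      have h2 : Nat.primeCounting 2 = 1 := by decide
      omega
    positivity
  simp only [Pi.div_apply]
  rw [div_div_div_cancel_right₀ hpc]

end

/-- the existence of the data -/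
theorem exists_dat (P : Finset Ei) (hwP : w ∉ P) {k : ℕ} (hk : 1 ≤ k) :
    ∃ (L : Type) (_ : Field L) (_ : NumberField L) (_ : IsGalois ℚ L), Nonempty (DatC L P k) := by
  classical
  obtain ⟨L, hL, hN, hG, ζ, z, hz, s, hζ, hzz, hs⟩ := exists_field P k
  refine ⟨L, hL, hN, hG, ?_⟩
  have hinj : Function.Injective (algebraMap (𝓞 L) L) := RingOfIntegers.coe_injective
  have hζi : IsIntegral ℤ ζ := hζ.isIntegral (by positivity)
  obtain ⟨ζ', hζ'⟩ : ∃ S : 𝓞 L, algebraMap (𝓞 L) L S = ζ := ⟨⟨ζ, hζi⟩, rfl⟩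
  have hpr : IsPrimitiveRoot ζ' (3 ^ (k + 1)) :=
    IsPrimitiveRoot.of_map_of_injective (by rw [hζ']; exact hζ) hinj
  set Z : 𝓞 L := ζ' ^ 3 ^ k with hZd
  have hZz : algebraMap (𝓞 L) L Z = z := by rw [hZd, map_pow, hζ', hzz]
  have hZ : Z * Z = -1 - Z := by
    apply hinj
    rw [map_mul, map_sub, map_neg, map_one, hZz, hz]
  have hev : ∀ x : Ei, algebraMap (𝓞 L) L (hom Z hZ x) = hom z hz x := by
    intro x
    rw [hom_apply, hom_apply, map_add, map_mul, map_intCast, map_intCast, hZz]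
  have hsi : ∀ q : Ei, ∃ S : 𝓞 L, q ∈ P → S ^ 3 = hom Z hZ q := by
    intro q
    by_cases hq : q ∈ P
    · have h1 := hs q hq
      have hi : IsIntegral ℤ (s q) := by
        apply IsIntegral.of_pow (n := 3) (by norm_num)
        rw [h1, ← hev]
        exact RingOfIntegers.isIntegral_coe _
      obtain ⟨S, hS⟩ : ∃ S : 𝓞 L, algebraMap (𝓞 L) L S = s q := ⟨⟨s q, hi⟩, rfl⟩
      refine ⟨S, fun _ => ?_⟩
      apply hinj
      rw [map_pow, hev, ← h1, hS]
    · exact ⟨0, fun h => absurd h hq⟩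
  choose S hS using hsi
  refine ⟨{ Z := Z, hZ := hZ, s := fun q => if q = w then ζ' ^ 3 ^ (k - 1) else S q,
            hw := ?_, hs := ?_, ζ := ζ', hζ := hpr, hZζ := rfl, hwζ := ?_ }⟩
  · rw [if_pos rfl, hom_w, hZd, ← pow_mul, ← pow_succ]
    have e : k - 1 + 1 = k := by omega
    rw [e]
  · intro q hq
    have hne : q ≠ w := by
      rintro rfl
      exact hwP hq
    show (if q = w then ζ' ^ 3 ^ (k - 1) else S q) ^ 3 = _
    rw [if_neg hne]
    exact hS q hq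
  · exact if_pos rfl

end T2h16.TT
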