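import Pool.Agent.T2h16.TT.Cri
import Pool.Agent.T2h16.TT.Dens

/-!
# Positive proportion of prime twists for every member of the Eisenstein family
-/

set_option autoImplicit false
set_option linter.style.haveILetI false

namespace T2h16.TT

open Filter Topology Finset
open Pool.Agent.Y715.T.St T2h16.TT.St
open Pool.Agent.Y715.T
open Pool.Agent.Y715.T.Rec (Pr cs la nn)
open Pool.Agent.Y715.T.RecG (Pq)
open Pool.Agent.Y692.QS (Ei w nr)
open Q283.TC (NT pq_eq_of_dvd)
open scoped Classical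

theorem adm_pq {k : ℕ} {ρ : Eis} (h : Adm k ρ) : Pq ρ := ⟨h.1, h.2.1⟩

/-! ### The number of nonsingular perturbations of the diagonal -/

theorem det_cons {m : ℕ} (A : Matrix (Fin (m + 1)) (Fin (m + 1)) (ZMod 3)) (t : ZMod 3)
    (u : Fin m → ZMod 3) : (A + Matrix.diagonal (Fin.cons t u : Fin (m + 1) → ZMod 3)).det =
      t * (A.submatrix Fin.succ Fin.succ + Matrix.diagonal u).det +
        (A + Matrix.diagonal (Fin.cons 0 u : Fin (m + 1) → ZMod 3)).det := by
  have hsub : ∀ (t : ZMod 3) (j : Fin (m + 1)),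
      ((A + Matrix.diagonal (Fin.cons t u : Fin (m + 1) → ZMod 3)).submatrix Fin.succ
        j.succAbove) = ((A + Matrix.diagonal (Fin.cons 0 u : Fin (m + 1) → ZMod 3)).submatrix
          Fin.succ j.succAbove) := by
    intro t j
    ext i l
    simp only [Matrix.submatrix_apply, Matrix.add_apply, Matrix.diagonal_apply, Fin.cons_succ]
  have hsub0 : ((A + Matrix.diagonal (Fin.cons 0 u : Fin (m + 1) → ZMod 3)).submatrix Fin.succ
      (Fin.succAbove 0)) = A.submatrix Fin.succ Fin.succ + Matrix.diagonal u := by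
    ext i l
    simp only [Matrix.submatrix_apply, Matrix.add_apply, Matrix.diagonal_apply, Fin.cons_succ,
      Fin.zero_succAbove, Fin.succ_inj]
  rw [Matrix.det_succ_row_zero, Matrix.det_succ_row_zero
    (A + Matrix.diagonal (Fin.cons 0 u : Fin (m + 1) → ZMod 3)), Fin.sum_univ_succ,
    Fin.sum_univ_succ]
  have hrest : ∀ i : Fin m, (A + Matrix.diagonal (Fin.cons t u : Fin (m + 1) → ZMod 3)) 0 i.succ =
      (A + Matrix.diagonal (Fin.cons 0 u : Fin (m + 1) → ZMod 3)) 0 i.succ := by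
    intro i
    rw [Matrix.add_apply, Matrix.add_apply, Matrix.diagonal_apply_ne _ (Fin.succ_ne_zero i).symm,
      Matrix.diagonal_apply_ne _ (Fin.succ_ne_zero i).symm]
  have h00 : (A + Matrix.diagonal (Fin.cons t u : Fin (m + 1) → ZMod 3)) 0 0 = A 0 0 + t := by
    rw [Matrix.add_apply, Matrix.diagonal_apply_eq, Fin.cons_zero]
  have h01 : (A + Matrix.diagonal (Fin.cons 0 u : Fin (m + 1) → ZMod 3)) 0 0 = A 0 0 + 0 := by
    rw [Matrix.add_apply, Matrix.diagonal_apply_eq, Fin.cons_zero]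
  simp only [hsub t, hrest, h00, h01, hsub0]
  rw [Fin.val_zero, pow_zero]
  ring

/-- at least `2 ^ m` perturbations of the diagonal are nonsingular -/
theorem card_diag : ∀ (m : ℕ) (A : Matrix (Fin m) (Fin m) (ZMod 3)),
    2 ^ m ≤ Nat.card {u : Fin m → ZMod 3 // (A + Matrix.diagonal u).det ≠ 0} := by
  intro m
  induction m with
  | zero =>
    intro A
    rw [pow_zero]
    have hne : Nonempty {u : Fin 0 → ZMod 3 // (A + Matrix.diagonal u).det ≠ 0} :=
      ⟨⟨fun _ => 0, by rw [Matrix.det_fin_zero]; exact one_ne_zero⟩⟩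
    exact Nat.card_pos
  | succ m ih =>
    intro A
    set B := A.submatrix Fin.succ Fin.succ with hB
    have h1 := ih B
    have key : ∀ c d : ZMod 3, c ≠ 0 → ∃ t : Bool → ZMod 3, Function.Injective t ∧
        ∀ b, t b * c + d ≠ 0 := by
      intro c d hc
      refine ⟨fun b => if b then (1 - d) * c else (2 - d) * c, ?_, ?_⟩
      · intro a b hab
        revert hc hab
        revert a b
        revert c d
        decide
      · intro b
        revert hc
        revert b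
        revert c d
        decide
    choose t ht1 ht2 using key
    have h2 : Nat.card ({u : Fin m → ZMod 3 // (B + Matrix.diagonal u).det ≠ 0} × Bool) ≤
        Nat.card {u : Fin (m + 1) → ZMod 3 // (A + Matrix.diagonal u).det ≠ 0} := by
      refine Nat.card_le_card_of_injective (fun x => ⟨Fin.cons
        (t (B + Matrix.diagonal x.1.1).det
          (A + Matrix.diagonal (Fin.cons 0 x.1.1 : Fin (m + 1) → ZMod 3)).det x.1.2 x.2) x.1.1,
        ?_⟩) ?_
      · rw [det_cons]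
        exact ht2 _ _ x.1.2 x.2
      · rintro ⟨⟨u, hu⟩, a⟩ ⟨⟨v, hv⟩, b⟩ hab
        simp only [Subtype.mk.injEq] at hab
        obtain ⟨h3, h4⟩ := Fin.cons_inj.1 hab
        subst h4
        have := ht1 _ _ hu h3
        subst this
        rfl
    rw [Nat.card_prod, Nat.card_eq_fintype_card (α := Bool), Fintype.card_bool] at h2
    calc 2 ^ (m + 1) = 2 ^ m * 2 := pow_succ 2 m
      _ ≤ _ := Nat.mul_le_mul_right 2 h1
      _ ≤ _ := h2

/-- some perturbation of the diagonal is nonsingular together with its negative -/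
theorem exists_both : ∀ (m : ℕ) (A : Matrix (Fin m) (Fin m) (ZMod 3)), ∃ u : Fin m → ZMod 3,
    (A + Matrix.diagonal u).det ≠ 0 ∧ (A - Matrix.diagonal u).det ≠ 0 := by
  intro m
  induction m with
  | zero =>
    intro A
    refine ⟨fun _ => 0, ?_, ?_⟩ <;> rw [Matrix.det_fin_zero] <;> exact one_ne_zero
  | succ m ih =>
    intro A
    obtain ⟨u, h1, h2⟩ := ih (A.submatrix Fin.succ Fin.succ)
    have key : ∀ c d c' d' : ZMod 3, c ≠ 0 → c' ≠ 0 → ∃ t : ZMod 3, t * c + d ≠ 0 ∧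
        -t * c' + d' ≠ 0 := by decide
    rw [sub_eq_add_neg, Matrix.diagonal_neg] at h2
    obtain ⟨t, h3, h4⟩ := key _
      (A + Matrix.diagonal (Fin.cons 0 u : Fin (m + 1) → ZMod 3)).det _
      (A + Matrix.diagonal (Fin.cons 0 (fun i => -u i) : Fin (m + 1) → ZMod 3)).det h1 h2
    refine ⟨Fin.cons t u, ?_, ?_⟩
    · rw [det_cons]
      exact h3
    · have e1 : (fun i => -(Fin.cons t u : Fin (m + 1) → ZMod 3) i) =
          Fin.cons (-t) (fun i => -u i) := by
        funext i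
        refine Fin.cases ?_ (fun i => ?_) i
        · rw [Fin.cons_zero, Fin.cons_zero]
        · rw [Fin.cons_succ, Fin.cons_succ]
      rw [sub_eq_add_neg, Matrix.diagonal_neg, e1, det_cons]
      exact h4

theorem count_lower {m : ℕ} (A : Matrix (Fin m) (Fin m) (ZMod 3)) :
    (2 / 3 : ℝ) ^ m ≤ (Nat.card {u : Fin m → ZMod 3 // (A + Matrix.diagonal u).det ≠ 0} : ℝ) /
      3 ^ m := by
  rw [div_pow]
  apply div_le_div_of_nonneg_right _ (by positivity)
  exact_mod_cast card_diag m A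

/-! ### The pairs of conditions -/

/-- counting pairs of conditions -/
theorem card_pairs {m : ℕ} {π : Fin m → Ei} (hinj : Function.Injective π)
    (h3 : ∀ j, π j ≠ la) (P : Finset Ei) (hP : P = insert la (univ.image π))
    (hm : ∀ j, π j ∈ P) (hm3 : la ∈ P) (G : (Fin m → ZMod 3) → Prop) (H : ZMod 3 → Prop) :
    P.card = m + 1 ∧
    Nat.card {x : P → ZMod 3 // G (fun j => x ⟨π j, hm j⟩) ∧ H (x ⟨la, hm3⟩)} =
      Nat.card {u : Fin m → ZMod 3 // G u} * Nat.card {z : ZMod 3 // H z} := by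
  have h3P : la ∉ univ.image π := by
    rw [Finset.mem_image]
    rintro ⟨j, -, hj⟩
    exact h3 j hj
  refine ⟨?_, ?_⟩
  · rw [hP, Finset.card_insert_of_notMem h3P, Finset.card_image_of_injective _ hinj,
      Finset.card_univ, Fintype.card_fin]
  · rw [← Nat.card_prod]
    refine Nat.card_congr (Equiv.ofBijective
      (fun x => (⟨fun j => x.1 ⟨π j, hm j⟩, x.2.1⟩, ⟨x.1 ⟨la, hm3⟩, x.2.2⟩)) ⟨?_, ?_⟩)
    · rintro ⟨x, hx⟩ ⟨y, hy⟩ hxy
      simp only [Prod.mk.injEq, Subtype.mk.injEq] at hxy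
      obtain ⟨h1, h2⟩ := hxy
      apply Subtype.ext
      funext q
      obtain ⟨q, hq⟩ := q
      have hq' := hq
      rw [hP, Finset.mem_insert, Finset.mem_image] at hq'
      rcases hq' with rfl | ⟨j, -, rfl⟩
      · exact h2
      · exact congrFun h1 j
    · rintro ⟨⟨u, hu⟩, ⟨z, hz⟩⟩
      set x : P → ZMod 3 := fun q => if h : ∃ j, π j = q then u h.choose else z with hx
      have e1 : (fun j => x ⟨π j, hm j⟩) = u := by
        funext j
        have h : ∃ i, π i = π j := ⟨j, rfl⟩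
        rw [hx]
        simp only
        rw [dif_pos h, hinj h.choose_spec]
      have e2 : x ⟨la, hm3⟩ = z := by
        rw [hx]
        simp only
        rw [dif_neg]
        rintro ⟨j, hj⟩
        exact h3 j hj
      refine ⟨⟨x, ?_, ?_⟩, ?_⟩
      · rw [e1]; exact hu
      · rw [e2]; exact hz
      · simp only [Prod.mk.injEq, Subtype.mk.injEq]
        exact ⟨e1, e2⟩

theorem la_prime : Prime (la : Ei) := by
  have hn : nr la = 3 := by decide
  have h1 : ¬ IsUnit (la : Ei) := by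
    rw [Pool.Agent.Y692.QS.isUnit_iff, hn]
    norm_num
  refine (irreducible_iff.2 ⟨h1, ?_⟩).prime
  intro a b hab
  have h2 : nr a * nr b = 3 := by rw [← Pool.Agent.Y692.QS.nr_mul, ← hab, hn]
  have ha := Pool.Agent.Y692.QS.nr_nonneg a
  have h4 : (nr a).natAbs * (nr b).natAbs = 3 := by
    rw [← Int.natAbs_mul, h2]
    rfl
  have h5 : (nr a).natAbs = 1 ∨ (nr a).natAbs = 3 := (Nat.dvd_prime Nat.prime_three).1 ⟨_, h4.symm⟩
  rw [Pool.Agent.Y692.QS.isUnit_iff, Pool.Agent.Y692.QS.isUnit_iff]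
  rcases h5 with h5 | h5
  · left
    omega
  · right
    have h6 : nr a = 3 := by omega
    rw [h6] at h2
    omega

theorem pr_not_la {ρ : Ei} (h : Pr ρ) : ¬ ρ ∣ la := by
  intro h1
  apply Rec.three_ne h.prime h.norm
  have e : (3 : Ei) = -(la * la) := by rw [Rec.la_sq]; ring
  rw [e]
  exact (dvd_neg).2 (Dvd.dvd.mul_right h1 _)

/-- the sum that decides the congruence modulo `9` -/
noncomputable def ss {m : ℕ} (π : Fin m → Ei) (e : Fin m → ZMod 3) : ZMod 3 :=
  ∑ j, e j * cs (π j) la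

theorem nine_snoc {m k : ℕ} (hk : 2 ≤ k) {π : Fin m → Eis} (hπ : ∀ j, Adm k (π j))
    (e : Fin m → ZMod 3) (e' : ZMod 3) {ρ : Eis} (hρ : Adm k ρ) :
    (9 : Eis) ∣ (∏ j, π j ^ (e j).val) * ρ ^ e'.val - 1 ↔ ss π e + e' * cs ρ la = 0 := by
  have hall : ∀ j : Fin (m + 1), Pr ((Fin.snoc π ρ : Fin (m + 1) → Eis) j) := by
    intro j
    induction j using Fin.lastCases with
    | last => rw [Fin.snoc_last]; exact adm_pr hk hρ
    | cast i => rw [Fin.snoc_castSucc]; exact adm_pr hk (hπ i)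
  have h1 := nine_iff hall (Fin.snoc e e' : Fin (m + 1) → ZMod 3)
  rw [Fin.prod_univ_castSucc, Fin.sum_univ_castSucc] at h1
  simp only [Fin.snoc_castSucc, Fin.snoc_last] at h1
  exact h1

section
variable {k m : ℕ} (hk : 2 ≤ k) {π : Fin m → Eis} (hπ : ∀ j, Adm k (π j))
  (hinj : Function.Injective π)

include hk hπ

theorem ind_la : Ind (insert la (univ.image π)) := by
  apply indep
  · intro q hq
    rcases Finset.mem_insert.1 hq with rfl | h
    · exact la_prime
    · obtain ⟨j, -, rfl⟩ := Finset.mem_image.1 h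
      exact (hπ j).1
  · have h1 : ∀ j, ¬ π j ∣ la := fun j => pr_not_la (adm_pr hk (hπ j))
    intro q hq r hr hd
    rcases Finset.mem_insert.1 hq with rfl | h
    · rcases Finset.mem_insert.1 hr with rfl | h'
      · rfl
      · obtain ⟨j, -, rfl⟩ := Finset.mem_image.1 h'
        exact absurd ((la_prime.dvd_prime_iff_associated (hπ j).1).1 hd).symm.dvd (h1 j)
    · obtain ⟨i, -, rfl⟩ := Finset.mem_image.1 h
      rcases Finset.mem_insert.1 hr with rfl | h'
      · exact absurd hd (h1 i)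
      · obtain ⟨j, -, rfl⟩ := Finset.mem_image.1 h'
        exact pq_eq_of_dvd (adm_pq (hπ j)) (adm_pq (hπ i)) hd

theorem good_iff (e : Fin m → ZMod 3) (e' : ZMod 3) {ρ : Eis} (hρ : Pq ρ) (hne : ∀ j, ρ ≠ π j) :
    Good k π e e' ρ ↔ (3 : ℤ) ^ (k + 1) ∣ nr ρ - 1 ∧
      ((lap π e - Matrix.diagonal fun j => e' * cs ρ (π j)).det ≠ 0 ∧
        ss π e + e' * cs ρ la ≠ 0) := by
  constructor
  · rintro ⟨h1, h2, h3, h4⟩
    refine ⟨h1.2.2, h3, ?_⟩
    rwa [nine_snoc hk hπ e e' h1] at h4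
  · rintro ⟨h1, h2, h3⟩
    have hA : Adm k ρ := ⟨hρ.prime, hρ.three, h1⟩
    refine ⟨hA, hne, h2, ?_⟩
    rwa [nine_snoc hk hπ e e' hA]

include hinj

/-- **The density of the new primes.** -/
theorem dens_good (e : Fin m → ZMod 3) (e' : ZMod 3) (he' : e' ≠ 0) :
    Tendsto (fun X : ℕ => (count (Good k π e e') X : ℝ) / (count (Adm k) X : ℝ)) atTop
      (𝓝 (2 / 3 * ((Nat.card {u : Fin m → ZMod 3 //
        (lap π e + Matrix.diagonal u).det ≠ 0} : ℝ) / 3 ^ m))) := by
  set P : Finset Ei := insert la (univ.image π) with hPd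
  have hI : Ind P := ind_la hk hπ
  have hm : ∀ j, π j ∈ P := fun j => Finset.mem_insert_of_mem (Finset.mem_image_of_mem _ (mem_univ j))
  have hm3 : la ∈ P := Finset.mem_insert_self _ _
  have h3 : ∀ j, π j ≠ la := by
    intro j hj
    exact pr_not_la (adm_pr hk (hπ j)) (by rw [hj])
  obtain ⟨L, hL, hN, hG, ⟨D⟩⟩ := exists_dat P hI.w0 (k := k) (by omega)
  have h1 := D.prop (by omega) hI
    (fun x => (lap π e - Matrix.diagonal fun j => e' * x ⟨π j, hm j⟩).det ≠ 0 ∧
      ss π e + e' * x ⟨la, hm3⟩ ≠ 0)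
    (Good k π e e') (by
      intro p hp hp3 ρ hρ hn hnP
      exact good_iff hk hπ e e' hρ (fun j hj => hnP (π j) (hm j) (by rw [hj])))
  obtain ⟨hc1, hc2⟩ := card_pairs hinj h3 P hPd hm hm3
    (fun u => (lap π e - Matrix.diagonal fun j => e' * u j).det ≠ 0)
    (fun z => ss π e + e' * z ≠ 0)
  rw [hc1, hc2] at h1
  have e5 : Nat.card {z : ZMod 3 // ss π e + e' * z ≠ 0} = 2 := by
    rw [Nat.card_eq_fintype_card, Fintype.card_subtype]
    have : ∀ s a : ZMod 3, a ≠ 0 → (univ.filter fun z : ZMod 3 => s + a * z ≠ 0).card = 2 := by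
      decide
    convert this (ss π e) e' he'
  have e6 : Nat.card {u : Fin m → ZMod 3 //
      (lap π e - Matrix.diagonal fun j => e' * u j).det ≠ 0} =
      Nat.card {u : Fin m → ZMod 3 // (lap π e + Matrix.diagonal u).det ≠ 0} := by
    have hee : e' * e' = 1 := (by decide : ∀ x : ZMod 3, x ≠ 0 → x * x = 1) e' he'
    refine Nat.card_congr
      { toFun := fun u => ⟨fun j => -(e' * u.1 j), ?_⟩
        invFun := fun u => ⟨fun j => -(e' * u.1 j), ?_⟩
        left_inv := fun u => ?_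
        right_inv := fun u => ?_ }
    · have e7 : (lap π e + Matrix.diagonal fun j => -(e' * u.1 j)) =
          lap π e - Matrix.diagonal fun j => e' * u.1 j := by
        rw [sub_eq_add_neg, ← Matrix.diagonal_neg]
      rw [e7]
      exact u.2
    · have e7 : (lap π e - Matrix.diagonal fun j => e' * -(e' * u.1 j)) =
          lap π e + Matrix.diagonal u.1 := by
        rw [sub_eq_add_neg, Matrix.diagonal_neg]
        congr 2
        funext j
        show -(e' * -(e' * u.1 j)) = u.1 j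
        linear_combination (u.1 j) * hee
      rw [e7]
      exact u.2
    · apply Subtype.ext
      funext j
      show -(e' * -(e' * u.1 j)) = u.1 j
      linear_combination (u.1 j) * hee
    · apply Subtype.ext
      funext j
      show -(e' * -(e' * u.1 j)) = u.1 j
      linear_combination (u.1 j) * hee
  rw [e5, e6] at h1
  have e1 : ∀ X : ℕ, NT (Good k π e e') X = count (Good k π e e') X := by
    intro X
    unfold NT count
    congr 1
    ext ρ
    constructor
    · rintro ⟨-, h2, h3⟩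
      exact ⟨h3, h2⟩
    · rintro ⟨h3, h2⟩
      exact ⟨adm_pq h3.1, h2, h3⟩
  have e2 : ∀ X : ℕ, NT (fun ρ => (3 : ℤ) ^ (k + 1) ∣ nr ρ - 1) X = count (Adm k) X := by
    intro X
    unfold NT count
    congr 1
    ext ρ
    constructor
    · rintro ⟨h1, h2, h3⟩
      exact ⟨⟨h1.prime, h1.three, h3⟩, h2⟩
    · rintro ⟨h3, h2⟩
      exact ⟨adm_pq h3, h2, h3.2.2⟩
  simp only [e1, e2] at h1
  have e3 : ((Nat.card {u : Fin m → ZMod 3 // (lap π e + Matrix.diagonal u).det ≠ 0} * 2 : ℕ) : ℝ) /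
      3 ^ (m + 1) =
      2 / 3 * ((Nat.card {u : Fin m → ZMod 3 // (lap π e + Matrix.diagonal u).det ≠ 0} : ℝ) /
        3 ^ m) := by
    push_cast
    rw [pow_succ]
    field_simp
  rwa [e3] at h1

/-- **The density of the primes that are good for all characters.** -/
theorem dens_all (e : Fin m → ZMod 3) : ∃ c : ℝ, (1 / 3 : ℝ) ^ (m + 1) ≤ c ∧
    Tendsto (fun X : ℕ => (count (fun ρ => ∀ e' : ZMod 3, e' ≠ 0 → Good k π e e' ρ) X : ℝ) /
      (count (Adm k) X : ℝ)) atTop (𝓝 c) := by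
  set P : Finset Ei := insert la (univ.image π) with hPd
  have hI : Ind P := ind_la hk hπ
  have hm : ∀ j, π j ∈ P := fun j => Finset.mem_insert_of_mem (Finset.mem_image_of_mem _ (mem_univ j))
  have hm3 : la ∈ P := Finset.mem_insert_self _ _
  have h3 : ∀ j, π j ≠ la := by
    intro j hj
    exact pr_not_la (adm_pr hk (hπ j)) (by rw [hj])
  obtain ⟨L, hL, hN, hG, ⟨D⟩⟩ := exists_dat P hI.w0 (k := k) (by omega)
  have h1 := D.prop (by omega) hI
    (fun x => (∀ e' : ZMod 3, e' ≠ 0 →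
      (lap π e - Matrix.diagonal fun j => e' * x ⟨π j, hm j⟩).det ≠ 0) ∧
      (∀ e' : ZMod 3, e' ≠ 0 → ss π e + e' * x ⟨la, hm3⟩ ≠ 0))
    (fun ρ => ∀ e' : ZMod 3, e' ≠ 0 → Good k π e e' ρ) (by
      intro p hp hp3 ρ hρ hn hnP
      have h5 : ∀ e', Good k π e e' ρ ↔ _ := fun e' =>
        good_iff hk hπ e e' hρ (fun j hj => hnP (π j) (hm j) (by rw [hj]))
      constructor
      · intro h
        refine ⟨((h5 1).1 (h 1 one_ne_zero)).1, fun e' he' => ((h5 e').1 (h e' he')).2.1,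
          fun e' he' => ((h5 e').1 (h e' he')).2.2⟩
      · rintro ⟨h6, h7, h8⟩ e' he'
        exact (h5 e').2 ⟨h6, h7 e' he', h8 e' he'⟩)
  obtain ⟨hc1, hc2⟩ := card_pairs hinj h3 P hPd hm hm3
    (fun u => ∀ e' : ZMod 3, e' ≠ 0 → (lap π e - Matrix.diagonal fun j => e' * u j).det ≠ 0)
    (fun z => ∀ e' : ZMod 3, e' ≠ 0 → ss π e + e' * z ≠ 0)
  rw [hc1, hc2] at h1
  have e1 : ∀ X : ℕ, NT (fun ρ => ∀ e' : ZMod 3, e' ≠ 0 → Good k π e e' ρ) X =
      count (fun ρ => ∀ e' : ZMod 3, e' ≠ 0 → Good k π e e' ρ) X := by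
    intro X
    unfold NT count
    congr 1
    ext ρ
    constructor
    · rintro ⟨-, h2, h3⟩
      exact ⟨h3, h2⟩
    · rintro ⟨h3, h2⟩
      exact ⟨adm_pq (h3 1 one_ne_zero).1, h2, h3⟩
  have e2 : ∀ X : ℕ, NT (fun ρ => (3 : ℤ) ^ (k + 1) ∣ nr ρ - 1) X = count (Adm k) X := by
    intro X
    unfold NT count
    congr 1
    ext ρ
    constructor
    · rintro ⟨h1, h2, h3⟩
      exact ⟨⟨h1.prime, h1.three, h3⟩, h2⟩
    · rintro ⟨h3, h2⟩
      exact ⟨adm_pq h3, h2, h3.2.2⟩
  simp only [e1, e2] at h1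
  refine ⟨_, ?_, h1⟩
  have h01 : ∀ x : ZMod 3, x ≠ 0 → x = 1 ∨ x = -1 := by decide
  obtain ⟨u, hu1, hu2⟩ := exists_both m (lap π e)
  have hne : Nonempty {u : Fin m → ZMod 3 //
      ∀ e' : ZMod 3, e' ≠ 0 → (lap π e - Matrix.diagonal fun j => e' * u j).det ≠ 0} := by
    refine ⟨⟨u, fun e' he' => ?_⟩⟩
    rcases h01 e' he' with rfl | rfl
    · simp only [one_mul]
      exact hu2
    · have e7 : (lap π e - Matrix.diagonal fun j => -1 * u j) = lap π e + Matrix.diagonal u := by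
        rw [sub_eq_add_neg, Matrix.diagonal_neg]
        congr 2
        funext j
        ring
      rw [e7]
      exact hu1
  obtain ⟨z, hz⟩ : ∃ z : ZMod 3, ∀ e' : ZMod 3, e' ≠ 0 → ss π e + e' * z ≠ 0 :=
    (by decide : ∀ s : ZMod 3, ∃ z : ZMod 3, ∀ e' : ZMod 3, e' ≠ 0 → s + e' * z ≠ 0) (ss π e)
  have hnz : Nonempty {z : ZMod 3 // ∀ e' : ZMod 3, e' ≠ 0 → ss π e + e' * z ≠ 0} := ⟨⟨z, hz⟩⟩
  have h6 : 1 ≤ Nat.card {u : Fin m → ZMod 3 //
      ∀ e' : ZMod 3, e' ≠ 0 → (lap π e - Matrix.diagonal fun j => e' * u j).det ≠ 0} *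
      Nat.card {z : ZMod 3 // ∀ e' : ZMod 3, e' ≠ 0 → ss π e + e' * z ≠ 0} :=
    Nat.mul_pos Nat.card_pos Nat.card_pos
  rw [one_div, inv_pow, ← one_div]
  apply div_le_div_of_nonneg_right _ (by positivity)
  exact_mod_cast h6

end

/-! ### The characters -/

theorem exp_congr {k : ℕ} {a b : Eis} (hab : a = b)
    (lam : MulChar (Eis ⧸ Ideal.span {a}) ℂ)
    (mu : MulChar (Eis ⧸ Ideal.span {b}) ℂ)
    (h : ∀ x : Eis, lam (Ideal.Quotient.mk _ x) = mu (Ideal.Quotient.mk _ x)) :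
    orderOf lam = orderOf mu ∧ ∀ e, IsExp k lam e ↔ IsExp k mu e := by
  subst hab
  have : lam = mu := by
    apply MulChar.ext'
    intro x
    obtain ⟨y, rfl⟩ := Ideal.Quotient.mk_surjective x
    exact h y
  subst this
  exact ⟨rfl, fun _ => Iff.rfl⟩

/-- the conclusion for one new prime -/
theorem concl_snoc {k m : ℕ} (hk : 2 ≤ k) {π : Fin m → Eis} (hπ : ∀ j, Adm k (π j))
    (hinj : Function.Injective π) {ρ : Eis} {e : Fin m → ZMod 3} {e' : ZMod 3}
    (hg : Good k π e e' ρ)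
    (lam' : ∀ j : Fin (m + 1),
      MulChar (Eis ⧸ Ideal.span {(Fin.snoc π ρ : Fin (m + 1) → Eis) j}) ℂ)
    (hlam : ∀ j, orderOf (lam' j) = 3 ^ k)
    (hexp : ∀ j, IsExp k (lam' j) ((Fin.snoc e e' : Fin (m + 1) → ZMod 3) j))
    (ζ : ℂ) (hζ : ζ ^ (3 ^ (k - 1)) = omega) : Concl k (m + 1) (Fin.snoc π ρ) lam' ζ := by
  obtain ⟨hA, hne, hns, h9⟩ := hg
  have hall : ∀ j : Fin (m + 1), Adm k ((Fin.snoc π ρ : Fin (m + 1) → Eis) j) := by
    intro j
    induction j using Fin.lastCases with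
    | last => rw [Fin.snoc_last]; exact hA
    | cast i => rw [Fin.snoc_castSucc]; exact hπ i
  refine concl_of k (m + 1) hk (Fin.snoc π ρ) (fun j => (hall j).1) ?_ (fun j => (hall j).2.1)
    (fun j => (hall j).2.2) lam' hlam (Fin.snoc e e')
    (fun j x c hx => res_of (adm_pr hk (hall j)) (hexp j) x c hx) ?_ ?_ ζ hζ
  · intro i j hij
    induction i using Fin.lastCases with
    | last =>
      induction j using Fin.lastCases with
      | last => rfl
      | cast j =>
        rw [Fin.snoc_last, Fin.snoc_castSucc] at hij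
        exact absurd hij (hne j)
    | cast i =>
      induction j using Fin.lastCases with
      | last =>
        rw [Fin.snoc_last, Fin.snoc_castSucc] at hij
        exact absurd hij.symm (hne i)
      | cast j =>
        rw [Fin.snoc_castSucc, Fin.snoc_castSucc] at hij
        rw [hinj hij]
  · exact ker_snoc (fun j => adm_pr hk (hπ j)) (adm_pr hk hA) hne hns
  · rw [Fin.prod_univ_castSucc]
    simp only [Fin.snoc_castSucc, Fin.snoc_last]
    exact h9

/-- **The main theorem.** -/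
theorem main (k m : ℕ) (hk : 2 ≤ k) (π : Fin m → Eis) (hπ : ∀ j, Adm k (π j))
    (hinj : Function.Injective π) (lam : ∀ j, MulChar (Eis ⧸ Ideal.span {π j}) ℂ)
    (hlam : ∀ j, orderOf (lam j) = 3 ^ k) (ζ : ℂ) (hζ : ζ ^ (3 ^ (k - 1)) = omega) :
    ∃ e : Fin m → ZMod 3, (∀ j, e j ≠ 0 ∧ IsExp k (lam j) (e j)) ∧
      (∀ e' : ZMod 3, e' ≠ 0 →
        Tendsto (fun X : ℕ => (count (Good k π e e') X : ℝ) / (count (Adm k) X : ℝ)) atTop
          (𝓝 (2 / 3 * ((Nat.card {u : Fin m → ZMod 3 //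
            (lap π e + Matrix.diagonal u).det ≠ 0} : ℝ) / 3 ^ m)))) ∧
      (2 / 3 : ℝ) ^ m ≤ (Nat.card {u : Fin m → ZMod 3 //
        (lap π e + Matrix.diagonal u).det ≠ 0} : ℝ) / 3 ^ m ∧
      (∃ c : ℝ, (1 / 3 : ℝ) ^ (m + 1) ≤ c ∧
        Tendsto (fun X : ℕ => (count (fun ρ => ∀ e' : ZMod 3, e' ≠ 0 → Good k π e e' ρ) X : ℝ) /
          (count (Adm k) X : ℝ)) atTop (𝓝 c)) ∧
      ∀ (ρ : Eis) (lam' : ∀ j : Fin (m + 1),
          MulChar (Eis ⧸ Ideal.span {(Fin.snoc π ρ : Fin (m + 1) → Eis) j}) ℂ),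
        Adm k ρ → (∀ (j : Fin m) (x : Eis), lam' j.castSucc (Ideal.Quotient.mk _ x) =
          lam j (Ideal.Quotient.mk _ x)) → orderOf (lam' (Fin.last m)) = 3 ^ k →
        ∃ e' : ZMod 3, e' ≠ 0 ∧ IsExp k (lam' (Fin.last m)) e' ∧
          (Good k π e e' ρ → Concl k (m + 1) (Fin.snoc π ρ) lam' ζ) := by
  have h0 : ∀ j, ∃ e : ZMod 3, e ≠ 0 ∧ IsExp k (lam j) e :=
    fun j => exists_exp hk (adm_pr hk (hπ j)) (hlam j)
  choose e he using h0
  refine ⟨e, he, fun e' he' => dens_good hk hπ hinj e e' he', count_lower _,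
    dens_all hk hπ hinj e, ?_⟩
  intro ρ lam' hA hext hlast
  have hpl : Pr ((Fin.snoc π ρ : Fin (m + 1) → Eis) (Fin.last m)) := by
    rw [Fin.snoc_last]
    exact adm_pr hk hA
  obtain ⟨e', he'0, he'⟩ := exists_exp hk hpl hlast
  refine ⟨e', he'0, he', fun hg => concl_snoc hk hπ hinj hg lam' ?_ ?_ ζ hζ⟩
  · intro j
    induction j using Fin.lastCases with
    | last => exact hlast
    | cast i =>
      rw [(exp_congr (k := k) (Fin.snoc_castSucc (α := fun _ => Eis) ρ π i) (lam' i.castSucc)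
        (lam i) (hext i)).1]
      exact hlam i
  · intro j
    induction j using Fin.lastCases with
    | last =>
      have h1 : (Fin.snoc e e' : Fin (m + 1) → ZMod 3) (Fin.last m) = e' := Fin.snoc_last _ _
      rw [h1]
      exact he'
    | cast i =>
      have h1 : (Fin.snoc e e' : Fin (m + 1) → ZMod 3) i.castSucc = e i := Fin.snoc_castSucc _ _ _
      rw [h1]
      exact ((exp_congr (k := k) (Fin.snoc_castSucc (α := fun _ => Eis) ρ π i)
        (lam' i.castSucc) (lam i) (hext i)).2 (e i)).2 (he i).2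

end T2h16.TT
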