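import Pool.Agent.Y715.T.RecC

/-!
# The supplementary law of cubic reciprocity
-/

set_option autoImplicit false

namespace T2h16.TT

open Pool.Agent.Y692.QS
open Pool.Agent.Y715.T.Rec
open Pool.Agent.Y715.T
open scoped Classical

/-- the reduction modulo the prime above three -/
noncomputable def rl : Ei →+* ZMod 3 := hom (1 : ZMod 3) (by decide)

theorem rl_apply (x : Ei) : rl x = (x.re : ZMod 3) + x.im := by
  unfold rl
  rw [hom_apply, mul_one]

theorem rl_three : rl 3 = 0 := by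
  rw [map_ofNat]
  rfl

theorem rl_la : rl la = 0 := by
  rw [rl_apply]
  have a1 : la.re = 1 := rfl
  have a2 : la.im = 2 := rfl
  rw [a1, a2]
  rfl

theorem rl_zero {x : Ei} : rl x = 0 ↔ la ∣ x := by
  constructor
  · intro h
    rw [rl_apply, ← Int.cast_add, ZMod.intCast_zmod_eq_zero_iff_dvd] at h
    obtain ⟨c, hc⟩ := h
    have hc' : x.re + x.im = 3 * c := by exact_mod_cast hc
    refine ⟨⟨2 * c - x.re, c - x.re⟩, ?_⟩
    have elre : la.re = 1 := rfl
    have elim : la.im = 2 := rfl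
    ext
    · rw [mul_re, elre, elim]
      ring
    · rw [mul_im, elre, elim]
      linarith
  · rintro ⟨y, rfl⟩
    rw [map_mul, rl_la, zero_mul]

theorem pr_of9 {ρ : Ei} (hρ : Prime ρ) (h3 : (3 : Ei) ∣ ρ - 1)
    (h9 : (9 : ℤ) ∣ nr ρ - 1) : Pr ρ := by
  refine ⟨hρ, ?_, h9⟩
  obtain ⟨q, hq⟩ := h3
  have hρq : ρ = 1 + 3 * q := by rw [← hq]; ring
  have e3re : (3 : Ei).re = 3 := rfl
  have e3im : (3 : Ei).im = 0 := rfl
  have e1re : (1 : Ei).re = 1 := rfl
  have e1im : (1 : Ei).im = 0 := rfl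
  have hre : ρ.re = 1 + 3 * q.re := by
    rw [hρq, QuadraticAlgebra.re_add, mul_re, e3re, e3im, e1re]
    ring
  have him : ρ.im = 3 * q.im := by
    rw [hρq, QuadraticAlgebra.im_add, mul_im, e3re, e3im, e1im]
    ring
  have h1 : (3 : ℤ) ∣ 2 * q.re - q.im := by
    unfold nr at h9
    rw [hre, him] at h9
    obtain ⟨c, hc⟩ := h9
    exact ⟨c - (q.re ^ 2 - q.re * q.im + q.im ^ 2), by linarith⟩
  obtain ⟨c, hc⟩ := h1
  rw [hq]
  refine mul_dvd_mul_left 3 ⟨⟨q.re - 2 * c, -c⟩, ?_⟩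
  have elre : la.re = 1 := rfl
  have elim : la.im = 2 := rfl
  ext
  · rw [mul_re, elre, elim]
    ring
  · rw [mul_im, elre, elim]
    linarith

/-- the symbol of the root of unity -/
theorem cs_w_all {ρ : Ei} (h : RecG.Pq ρ) : cs ρ w = ((nn ρ : ℕ) : ZMod 3) := by
  apply RecG.cs_of h.prime h.norm
  have e : (w : Ei) ^ nn ρ = w ^ ((nn ρ : ℕ) : ZMod 3).val := by
    rw [ZMod.val_natCast]
    conv_lhs => rw [← Nat.div_add_mod (nn ρ) 3]
    rw [pow_add, pow_mul, w_cube, one_pow, one_mul]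
  rw [e, sub_self]
  exact dvd_zero _

theorem w_unit : IsUnit (w : Ei) := isUnit_iff.2 (by decide)

theorem cs_div {π : Ei} (h : Pr π) (c : ZMod 3) (α : Ei) (h0 : α ≠ 0)
    (hα : ∀ ρ : Ei, Prime ρ → ρ ∣ α → ¬ ρ ∣ 3 ∧ ¬ π ∣ ρ ∧ ρ ∣ π - w ^ c.val) :
    (3 : ℤ) ∣ nr α - 1 ∧ cs π α = c * (((nr α - 1) / 3 : ℤ) : ZMod 3) := by
  induction α using UniqueFactorizationMonoid.induction_on_prime with
  | h₁ => exact absurd rfl h0
  | h₂ u hu =>
    rw [isUnit_iff.1 hu, RecC.cs_unit h hu]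
    simp
  | h₃ β ρ hβ hρ ih =>
    have hβ0 : β ≠ 0 := hβ
    obtain ⟨i1, i2⟩ := ih hβ0 (fun r hr hd => hα r hr (Dvd.dvd.mul_left hd _))
    obtain ⟨h3, hn, ht⟩ := hα ρ hρ (dvd_mul_right _ _)
    obtain ⟨u, hu, hu3⟩ := RecC.exists_prim hρ h3
    have hup : Prime (u * ρ) := by
      obtain ⟨v, rfl⟩ := hu
      exact (Associated.prime_iff ⟨v, mul_comm _ _⟩).1 hρ
    have hnr : nr (u * ρ) = nr ρ := by rw [nr_mul, isUnit_iff.1 hu, one_mul]
    have hq : RecG.Pq (u * ρ) := ⟨hup, hu3⟩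
    have hqπ : RecG.Pq π := ⟨h.prime, dvd_trans three_dvd_la h.three⟩
    have hdβ : ¬ π ∣ β := by
      intro h1
      obtain ⟨-, h5, -⟩ := hα π h.prime (Dvd.dvd.mul_left h1 _)
      exact h5 dvd_rfl
    have hdu : ¬ π ∣ u := fun h1 => h.prime.not_isUnit (isUnit_of_dvd_unit h1 hu)
    have h5 : cs π ρ = cs π (u * ρ) := by
      rw [cs_mul h.prime h.norm hdu hn, RecC.cs_unit h hu, zero_add]
    have hnu : ¬ π ∣ u * ρ := fun h1 => (h.prime.dvd_or_dvd h1).elim hdu hn
    have hnu' : ¬ u * ρ ∣ π := by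
      intro h1
      exact hnu ((hup.dvd_prime_iff_associated h.prime).1 h1).symm.dvd
    have h7 : cs (u * ρ) π = cs π (u * ρ) := by
      by_cases hc : nr π = nr (u * ρ)
      · refine RecC.cs_comm_all h (pr_of9 hup hu3 ?_) hnu'
        rw [← hc]
        exact h.norm
      · exact RecG.cs_comm hqπ hq hc
    have hwu : ¬ u * ρ ∣ (w : Ei) := fun h1 => hup.not_isUnit (isUnit_of_dvd_unit h1 w_unit)
    have h8 : cs (u * ρ) π = c * ((nn (u * ρ) : ℕ) : ZMod 3) := by
      rw [RecG.cs_congr hup hq.norm hnu' (y := w ^ c.val), RecG.cs_pow hup hq.norm hwu,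
        cs_w_all hq, ZMod.natCast_zmod_val]
      obtain ⟨v, rfl⟩ := hu
      exact (Units.mul_left_dvd).2 ht
    have hnn : nn (u * ρ) = nn ρ := by
      unfold nn
      rw [hnr]
    have hnat := RecC.nr_nn hρ h3
    have hnn0 := nr_nonneg ρ
    have hρn : nr ρ = 3 * (nn ρ : ℤ) + 1 := by omega
    obtain ⟨b, hb⟩ := i1
    have hβn : nr β = 3 * b + 1 := by linarith
    have hprod : nr (ρ * β) - 1 = 3 * (3 * ((nn ρ : ℤ) * b) + nn ρ + b) := by
      rw [nr_mul, hρn, hβn]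
      ring
    refine ⟨⟨_, hprod⟩, ?_⟩
    rw [hprod, Int.mul_ediv_cancel_left _ (by norm_num), cs_mul h.prime h.norm hn hdβ, i2, hb,
      Int.mul_ediv_cancel_left _ (by norm_num), h5, ← h7, h8, hnn]
    push_cast
    have h30 : (3 : ZMod 3) = 0 := rfl
    rw [h30]
    ring

/-- **The supplementary law.** -/
theorem cs_la {π : Ei} (h : Pr π) {q : Ei} (hq : π = 1 + 3 * la * q) : cs π la = rl q := by
  set x : Ei := 1 + 3 * w * q with hx
  have e1 : (w : Ei) ^ 2 * la = 1 - w := by decide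
  have e2 : (w : Ei) ^ 2 * w = 1 := by decide
  have hdiff : π - w = w ^ 2 * la * x := by
    rw [hq, hx]
    linear_combination -e1 - 3 * la * q * e2
  have hrx : rl x = 1 := by
    rw [hx, map_add, map_mul, map_mul, rl_three, map_one]
    ring
  have hx0 : x ≠ 0 := by
    intro h0
    rw [h0, map_zero] at hrx
    exact zero_ne_one hrx
  have hxd : x ∣ π - w := ⟨w ^ 2 * la, by rw [hdiff]; ring⟩
  have hwd : ¬ π ∣ (w : Ei) := fun h1 => h.prime.not_isUnit (isUnit_of_dvd_unit h1 w_unit)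
  have hπx : ¬ π ∣ x := by
    intro h1
    apply hwd
    have := (dvd_sub_comm).1 (dvd_trans h1 hxd)
    have e : (w : Ei) = (w - π) + π := by ring
    rw [e]
    exact dvd_add this dvd_rfl
  obtain ⟨-, h2⟩ := cs_div h 1 x hx0 (by
    intro ρ hρ hd
    refine ⟨?_, ?_, ?_⟩
    · intro h3
      apply hρ.not_isUnit
      apply isUnit_of_dvd_one
      have e : (1 : Ei) = x - 3 * (w * q) := by rw [hx]; ring
      rw [e]
      exact dvd_sub hd (Dvd.dvd.mul_right h3 _)
    · intro h1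
      exact hπx (dvd_trans h1 hd)
    · have : (w : Ei) ^ (1 : ZMod 3).val = w := by decide
      rw [this]
      exact dvd_trans hd hxd)
  have h3la : ¬ π ∣ la := by
    intro h1
    apply three_ne h.prime h.norm
    have e : (3 : Ei) = -(la * la) := by rw [la_sq]; ring
    rw [e]
    exact (dvd_neg).2 (Dvd.dvd.mul_right h1 _)
  have hw2 : ¬ π ∣ (w : Ei) ^ 2 := fun h1 => hwd (h.prime.dvd_of_dvd_pow h1)
  have hwl : ¬ π ∣ (w : Ei) ^ 2 * la := fun h1 => (h.prime.dvd_or_dvd h1).elim hw2 h3la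
  have hall : ¬ π ∣ (w : Ei) ^ 2 * la * x := fun h1 => (h.prime.dvd_or_dvd h1).elim hwl hπx
  have h4 : cs π (w ^ 2 * la * x) = cs π (-w) := by
    apply cs_congr h.prime h.norm hall
    rw [← hdiff]
    refine ⟨1, by ring⟩
  rw [RecC.cs_unit h w_unit.neg, cs_mul h.prime h.norm hwl hπx, cs_mul h.prime h.norm hw2 h3la,
    RecC.cs_unit h (w_unit.pow 2), zero_add, one_mul] at *
  have hn : nr x - 1 = 3 * (-q.re - q.im + 3 * (q.im ^ 2 + q.im * (q.re - q.im) +
      (q.re - q.im) ^ 2)) := by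
    have e3re : (3 : Ei).re = 3 := rfl
    have e3im : (3 : Ei).im = 0 := rfl
    have e1re : (1 : Ei).re = 1 := rfl
    have e1im : (1 : Ei).im = 0 := rfl
    have f1 : x.re = 1 - 3 * q.im := by
      rw [hx, QuadraticAlgebra.re_add]
      simp only [mul_re, mul_im, e3re, e3im, e1re, w_re, w_im]
      ring
    have f2 : x.im = 3 * (q.re - q.im) := by
      rw [hx, QuadraticAlgebra.im_add]
      simp only [mul_re, mul_im, e3re, e3im, e1im, w_re, w_im]
      ring
    unfold nr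
    rw [f1, f2]
    ring
  rw [hn, Int.mul_ediv_cancel_left _ (by norm_num)] at h2
  rw [h2] at h4
  push_cast at h4
  have h30 : (3 : ZMod 3) = 0 := rfl
  rw [h30, zero_mul, add_zero] at h4
  rw [rl_apply]
  linear_combination h4

/-- the class modulo `9` of a number that is `1` modulo `3 la` -/
def Fq (x : Ei) (t : ZMod 3) : Prop := ∃ q : Ei, x = 1 + 3 * la * q ∧ rl q = t

theorem fq_one : Fq 1 0 := ⟨0, by ring, map_zero _⟩

theorem Fq.mul {x y : Ei} {s t : ZMod 3} (hx : Fq x s) (hy : Fq y t) : Fq (x * y) (s + t) := by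
  obtain ⟨p, rfl, rfl⟩ := hx
  obtain ⟨q, rfl, rfl⟩ := hy
  refine ⟨p + q + 3 * (la * p * q), by ring, ?_⟩
  rw [map_add, map_add, map_mul, rl_three, zero_mul, add_zero]

theorem Fq.pow {x : Ei} {s : ZMod 3} (hx : Fq x s) (n : ℕ) : Fq (x ^ n) (n * s) := by
  induction n with
  | zero => simpa using fq_one
  | succ n ih =>
    rw [pow_succ]
    have := ih.mul hx
    push_cast
    rwa [add_mul, one_mul]

theorem fq_prod {J : Type} (S : Finset J) (x : J → Ei) (s : J → ZMod 3)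
    (h : ∀ j ∈ S, Fq (x j) (s j)) : Fq (∏ j ∈ S, x j) (∑ j ∈ S, s j) := by
  induction S using Finset.induction_on with
  | empty => simpa using fq_one
  | insert i S hi ih =>
    rw [Finset.prod_insert hi, Finset.sum_insert hi]
    exact (h i (Finset.mem_insert_self _ _)).mul (ih fun j hj => h j (Finset.mem_insert_of_mem hj))

theorem Fq.nine {x : Ei} {s : ZMod 3} (hx : Fq x s) : (9 : Ei) ∣ x - 1 ↔ s = 0 := by
  obtain ⟨q, rfl, rfl⟩ := hx
  have e9 : (9 : Ei) = 3 * la * (-la) := by linear_combination 3 * la_sq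
  have h0 : (3 : Ei) * la ≠ 0 := by decide
  have e : (1 : Ei) + 3 * la * q - 1 = 3 * la * q := by ring
  rw [rl_zero, e, e9, mul_dvd_mul_iff_left h0, neg_dvd]

theorem fq_pr {π : Ei} (h : Pr π) : Fq π (cs π la) := by
  obtain ⟨q, hq⟩ := h.three
  have hq' : π = 1 + 3 * la * q := by rw [← hq]; ring
  exact ⟨q, hq', (cs_la h hq').symm⟩

/-- the condition modulo `9` -/
theorem nine_iff {J : Type} [Fintype J] {π : J → Ei} (hpr : ∀ j, Pr (π j)) (e : J → ZMod 3) :
    (9 : Ei) ∣ ∏ j, π j ^ (e j).val - 1 ↔ ∑ j, e j * cs (π j) la = 0 := by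
  refine (fq_prod Finset.univ (fun j => π j ^ (e j).val) (fun j => e j * cs (π j) la) ?_).nine
  intro j _
  have := (fq_pr (hpr j)).pow (e j).val
  rwa [ZMod.natCast_zmod_val] at this

end T2h16.TT
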