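import Pool.Agent.T2h16.TT.St
import Pool.Agent.T2h16.TT.Sup
import Pool.Agent.Y715.T.Pf

/-!
# The criterion for the twists and one new prime
-/

set_option autoImplicit false

namespace T2h16.TT

open WeierstrassCurve Pool.Agent.Y715.T.St T2h16.TT.St
open Pool.Agent.Y715.T Pool.Agent.Y715.T.Pf
open Pool.Agent.Y715.T.Rec (Pr cs la nn)
open Pool.Agent.Y692.QS (Ei w)
open scoped Classical

theorem concl_of (k m : ℕ) (hk : 2 ≤ k) (π : Fin m → Eis)
    (hprime : ∀ j, Prime (π j)) (hinj : Function.Injective π)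
    (hthree : ∀ j, (3 : Eis) ∣ π j - 1)
    (hnorm : ∀ j, (3 : ℤ) ^ (k + 1) ∣ nrm (π j) - 1)
    (lam : ∀ j, MulChar (Eis ⧸ Ideal.span {π j}) ℂ)
    (hlam : ∀ j, orderOf (lam j) = 3 ^ k)
    (e : Fin m → ZMod 3)
    (hres : ∀ j (x : Eis) (c : ℕ), π j ∣ x ^ (((nrm (π j)).natAbs - 1) / 3) - ⟨0, 1⟩ ^ c →
      lam j (Ideal.Quotient.mk _ x) ^ 3 ^ (k - 1) = omega ^ (c * (e j).val))
    (hker : ∀ v : Fin m → ZMod 3, (∀ j, ∑ i, Sel.aij π e i j * (v i - v j) = 0) →
      ∀ i j, v i = v j)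
    (hodd : ¬ (9 : Eis) ∣ ∏ j, π j ^ (e j).val - 1)
    (ζ : ℂ) (hζ : ζ ^ 3 ^ (k - 1) = omega) : Concl k m π lam ζ := by
  unfold Concl
  have hk0 : k ≠ 0 := by omega
  have hpr : ∀ j, Pool.Agent.Y715.T.Rec.Pr (π j) :=
    fun j => pr_of hk (hprime j) (hthree j) (hnorm j)
  have hnd : ∀ i j, i ≠ j → ¬ π j ∣ π i := fun i j hij h =>
    hij (hinj (Pool.Agent.Y715.T.RecC.eq_of_dvd (hpr i) (hpr j) h)).symm
  have hprim := Pool.Agent.Y715.T.Fin.prim_of (by omega : 1 ≤ k) (hζ.trans omega_eq)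
  have hz1 : 1 - ζ ≠ 0 := sub_ne_zero.2 (hprim.ne_one (Nat.one_lt_pow hk0 (by norm_num))).symm
  refine ⟨?_, ?_⟩
  · obtain ⟨L, ξ, hξ, hL⟩ := Pool.Agent.Y715.T.Om.exists_lat
    have hΩ : Pool.Agent.Y715.T.Om.Om = Omega := rfl
    have hpos := Pool.Agent.Y715.T.Om.Om_pos
    rw [hΩ] at hL hpos
    have hΩ0 : (Omega : ℂ) ≠ 0 := by exact_mod_cast hpos.ne'
    have hex : ∀ t : ℕ, ∃ F : ℂ → ℂ, ¬ 3 ∣ t → (IsLFunction lam t F ∧ F 1 ≠ 0) ∧
      ∀ (Γ : Type) [LinearOrderedCommGroupWithZero Γ] (v : Valuation ℂ Γ), v 3 < 1 →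
        v (F 1 / Omega) = v (1 - ζ) ^ (m - 1) ∧
            v ((starRingEnd ℂ) (F 1) / Omega) = v (1 - ζ) ^ (m - 1) := by
      intro t
      by_cases ht : ¬ 3 ∣ t
      · obtain ⟨F, hF1, hF2⟩ := one_value hk hpr hnd hnorm hker hodd hlam hres hζ ht
        exact ⟨F, fun _ => ⟨hF1, fun Γ _ v hv => hF2 Γ v hv L Omega ξ hξ hL⟩⟩
      · exact ⟨0, fun h => absurd h ht⟩
    choose F hF using hex
    refine ⟨F, fun t ht => (hF t ht).1.1, ?_, ?_⟩
    · intro t ht
      obtain ⟨u, hu, e⟩ := unit_of (x := F t 1 / Omega) (y := (1 - ζ) ^ (m - 1))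
        (div_ne_zero (hF t ht).1.2 hΩ0) (pow_ne_zero _ hz1) (fun Γ _ v hv => by
          rw [((hF t ht).2 Γ v hv).1, map_pow])
      refine ⟨u, hu, ?_⟩
      rw [div_eq_iff hΩ0] at e
      rw [e]
      ring
    · have hval : ∀ (Γ : Type) [LinearOrderedCommGroupWithZero Γ] (v : Valuation ℂ Γ), v 3 < 1 →
          v (LA k F 1 / (Omega : ℂ) ^ (2 * 3 ^ (k - 1))) = v (3 ^ (m - 1)) := by
        intro Γ _ v hv
        have h1 := Pool.Agent.Y715.T.Pv.prod_val hv (by omega : 1 ≤ k) hprim (Ω := (Omega : ℂ))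
          (f := fun t => F t 1) (m := m - 1)
          (fun t ht => ((hF t ht).2 Γ v hv).1)
          (fun t ht => ((hF t ht).2 Γ v hv).2)
        unfold LA
        rw [map_one, map_pow]
        exact h1
      have h2 : (3 : ℂ) ^ (m - 1) ≠ 0 := pow_ne_zero _ three_ne_zero
      have h3 : LA k F 1 / (Omega : ℂ) ^ (2 * 3 ^ (k - 1)) ≠ 0 := by
        refine div_ne_zero ?_ (pow_ne_zero _ hΩ0)
        unfold LA
        refine Finset.prod_ne_zero_iff.2 fun t ht => ?_
        have ht3 : ¬ 3 ∣ t := by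
          rw [Finset.mem_filter] at ht
          omega
        have h4 := (hF t ht3).1.2
        rw [map_one]
        exact mul_ne_zero h4 ((map_ne_zero _).2 h4)
      obtain ⟨u, hu, e⟩ := unit_of h3 h2 hval
      refine ⟨u, hu, ?_⟩
      rw [div_eq_iff (pow_ne_zero _ hΩ0)] at e
      rw [e]
      ring
  · intro i₀ hi a ha
    have hD := dat_of hk hpr hnd hlam hres hζ hi ha
    refine ⟨⟨Pool.Agent.Y715.T.Ell.T0 (Pool.Agent.Y715.T.Df.isE QBar),
      Pool.Agent.Y715.T.Ell.T0_nons (Pool.Agent.Y715.T.Df.isE QBar), rfl, ?_⟩, ?_⟩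
    · apply Set.ext
      intro P
      rw [points_eq hi a P]
      constructor
      · intro hP
        obtain ⟨c, hc⟩ := Pool.Agent.Y715.T.Ot.AK_eq hk0 hk hD hker hodd hP
        rcases Pool.Agent.Y715.T.Df.z3 c with rfl | rfl | rfl
        · left
          rw [hc]
          funext j
          exact Pool.Agent.Y715.T.Df.tt_zero
        · right
          left
          rw [hc]
          funext j
          exact Pool.Agent.Y715.T.Df.tt_one
        · right
          right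
          rw [Set.mem_singleton_iff, hc]
          funext j
          exact Pool.Agent.Y715.T.Df.tt_neg_one
      · rintro (h | h | h)
        · rw [h]
          exact zero_mem _
        · have h1 : P = Pool.Agent.Y715.T.Ar.ct QBar k 1 := by
            rw [h]
            funext j
            exact Pool.Agent.Y715.T.Df.tt_one.symm
          rw [h1]
          exact Pool.Agent.Y715.T.Mw.ct_mem 1
        · have h1 : P = Pool.Agent.Y715.T.Ar.ct QBar k (-1) := by
            rw [Set.mem_singleton_iff.1 h]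
            funext j
            exact Pool.Agent.Y715.T.Df.tt_neg_one.symm
          rw [h1]
          exact Pool.Agent.Y715.T.Mw.ct_mem (-1)
    · intro f n h1 h2 h3
      rw [coboundary_iff hi]
      exact Pool.Agent.Y715.T.Ar.sha_zero hk0 hk hD hker hodd n ((cocycle_iff hi a f).1 h1)
        ((local_iff hi a f).1 h2) ((coboundary_iff hi a _).1 h3)


/-! ### The symbols -/

theorem sy_eq (π x : Eis) : sy π x = cs π x := rfl

theorem lap_mulVec {m : ℕ} (π : Fin m → Eis) (e v : Fin m → ZMod 3) (j : Fin m) :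
    ((lap π e).mulVec v) j = ∑ i, e i * sy (π j) (π i) * (v i - v j) := by
  unfold lap Matrix.mulVec dotProduct
  simp only [Matrix.of_apply]
  rw [← Finset.add_sum_erase _ _ (Finset.mem_univ j), ← Finset.add_sum_erase _ _ (Finset.mem_univ j)]
  rw [if_pos rfl, sub_self, mul_zero, zero_add, neg_mul, Finset.sum_mul, ← Finset.sum_neg_distrib,
    ← Finset.sum_add_distrib]
  refine Finset.sum_congr rfl fun i hi => ?_
  rw [if_neg (Finset.ne_of_mem_erase hi).symm]
  ring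

/-- **One new prime.** -/
theorem ker_snoc {m : ℕ} {π : Fin m → Eis} {ρ : Eis} {e : Fin m → ZMod 3} {e' : ZMod 3}
    (hpr : ∀ j, Pr (π j)) (hρ : Pr ρ) (hnd : ∀ j, ρ ≠ π j)
    (h : (lap π e - Matrix.diagonal fun j => e' * sy ρ (π j)).det ≠ 0) :
    ∀ v : Fin (m + 1) → ZMod 3, (∀ j, ∑ i, Sel.aij (Fin.snoc π ρ : Fin (m + 1) → Eis)
      (Fin.snoc e e' : Fin (m + 1) → ZMod 3) i j * (v i - v j) = 0) → ∀ i j, v i = v j := by
  intro v hv
  have h0 : (fun j : Fin m => v j.castSucc - v (Fin.last m)) = 0 := by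
    apply Matrix.eq_zero_of_mulVec_eq_zero h
    funext j
    rw [Matrix.sub_mulVec, Pi.sub_apply, lap_mulVec, Matrix.mulVec_diagonal, Pi.zero_apply]
    have h1 := hv j.castSucc
    rw [Fin.sum_univ_castSucc] at h1
    simp only [Sel.aij, Fin.snoc_castSucc, Fin.snoc_last] at h1
    have hnd' : ¬ ρ ∣ π j := fun hd => hnd j (RecC.eq_of_dvd (hpr j) hρ hd)
    rw [sy_eq, RecC.cs_comm_all (hpr j) hρ hnd']
    have h3 : ∑ i : Fin m, e i * sy (π j) (π i) *
        (v i.castSucc - v (Fin.last m) - (v j.castSucc - v (Fin.last m))) =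
        ∑ i : Fin m, e i * cs (π j) (π i) * (v i.castSucc - v j.castSucc) := by
      refine Finset.sum_congr rfl fun i _ => ?_
      rw [sy_eq]
      ring
    rw [h3]
    linear_combination h1
  have h1 : ∀ i : Fin (m + 1), v i = v (Fin.last m) := by
    intro i
    induction i using Fin.lastCases with
    | last => rfl
    | cast i =>
      have h2 := congrFun h0 i
      exact sub_eq_zero.1 h2
  intro i j
  rw [h1 i, h1 j]

/-! ### The exponents of the characters -/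

theorem adm_pr {k : ℕ} (hk : 2 ≤ k) {ρ : Eis} (h : Adm k ρ) : Pr ρ :=
  pr_of hk h.1 h.2.1 h.2.2

theorem res_of {k : ℕ} {ρ : Eis} (h : Pr ρ)
    {lam : MulChar (Eis ⧸ Ideal.span {ρ}) ℂ} {e : ZMod 3} (he : IsExp k lam e)
    (x : Eis) (c : ℕ) (hx : ρ ∣ x ^ (((nrm ρ).natAbs - 1) / 3) - ⟨0, 1⟩ ^ c) :
    lam (Ideal.Quotient.mk _ x) ^ 3 ^ (k - 1) = omega ^ (c * e.val) := by
  have hwu : ¬ ρ ∣ (w : Ei) ^ c := fun h1 =>
    h.prime.not_isUnit (isUnit_of_dvd_unit h1 (w_unit.pow c))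
  have h3 : ¬ ρ ∣ 3 := Rec.three_ne h.prime h.norm
  have hnn := RecC.nr_nn h.prime h3
  have hnn0 : nn ρ ≠ 0 := by
    intro h0
    rw [h0] at hnn
    apply Rec.not_unit h.prime
    have := Pool.Agent.Y692.QS.nr_nonneg ρ
    omega
  have hdx : ¬ ρ ∣ x := by
    intro h1
    apply hwu
    have h2 : ρ ∣ x ^ nn ρ := dvd_trans h1 (dvd_pow_self x hnn0)
    have e1 : (w : Ei) ^ c = x ^ nn ρ - (x ^ nn ρ - w ^ c) := by ring
    rw [e1]
    exact dvd_sub h2 hx
  have hcs : cs ρ x = (c : ZMod 3) := by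
    apply Rec.cs_of h.prime h.norm
    have e2 : (w : Ei) ^ ((c : ZMod 3)).val = w ^ c := by
      rw [ZMod.val_natCast]
      conv_rhs => rw [← Nat.div_add_mod c 3]
      rw [pow_add, pow_mul, Pool.Agent.Y692.QS.w_cube, one_pow, one_mul]
    rw [e2]
    exact hx
  rw [he x hdx, sy_eq, hcs, omega_eq]
  have h5 : (e * (c : ZMod 3)).val = c * e.val % 3 := by
    rw [ZMod.val_mul, ZMod.val_natCast, Nat.mul_mod_mod, mul_comm]
  rw [h5]
  conv_rhs => rw [← Nat.div_add_mod (c * e.val) 3]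
  rw [pow_add, pow_mul, Fin.toC_w_cube, one_pow, one_mul]

/-- a character of exact order `3 ^ k` has an exponent -/
theorem exists_exp {k : ℕ} (hk : 2 ≤ k) {ρ : Eis} (h : Pr ρ)
    {lam : MulChar (Eis ⧸ Ideal.span {ρ}) ℂ} (hl : orderOf lam = 3 ^ k) :
    ∃ e : ZMod 3, e ≠ 0 ∧ IsExp k lam e := by
  set mu : MulChar (Eis ⧸ Ideal.span {ρ}) ℂ := lam ^ 3 ^ (k - 1) with hmu
  have hpos : 3 ^ (k - 1) ≠ 0 := by positivity
  have hmu1 : mu ≠ 1 := by
    intro h1
    have h2 := orderOf_dvd_of_pow_eq_one h1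
    rw [hl] at h2
    have h3 := (Nat.pow_dvd_pow_iff_le_right (by norm_num : 1 < 3)).1 h2
    omega
  have hmu3 : mu ^ 3 = 1 := by
    rw [hmu, ← pow_mul, ← pow_succ, Nat.sub_add_cancel (by omega), ← hl, pow_orderOf_eq_one]
  have happ : ∀ x : Eis, mu (Ideal.Quotient.mk _ x) = lam (Ideal.Quotient.mk _ x) ^ 3 ^ (k - 1) :=
    fun x => by rw [hmu, MulChar.pow_apply' _ hpos]
  obtain ⟨g₀, hg₀, hg1⟩ := Ex.exists_ne h.prime hmu1
  -- the value at a cube
  have hunit : ∀ x : Eis, ¬ ρ ∣ x → IsUnit (Ideal.Quotient.mk (Ideal.span {ρ}) x) := by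
    intro x hx
    letI := Rec.fld h.prime
    have : Ideal.Quotient.mk (Ideal.span {ρ}) x ≠ 0 := by
      rw [Ne, Rec.mk_eq_zero]
      exact hx
    exact this.isUnit
  have hcube : ∀ x : Eis, ¬ ρ ∣ x → cs ρ x = 0 → mu (Ideal.Quotient.mk _ x) = 1 := by
    intro x hx h0
    obtain ⟨y, hy⟩ := (Rec.cs_zero_iff h.prime h.norm hx).1 h0
    have e1 : Ideal.Quotient.mk (Ideal.span {ρ}) x = (Ideal.Quotient.mk (Ideal.span {ρ}) y) ^ 3 := by
      rw [← map_pow, Rec.mk_eq]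
      exact hy
    have hyd : ¬ ρ ∣ y := by
      intro h1
      apply hx
      have e2 : x = (x - y ^ 3) + y ^ 3 := by ring
      rw [e2]
      exact dvd_add hy (dvd_pow h1 (by norm_num))
    rw [e1, map_pow, ← MulChar.pow_apply' mu (by norm_num), hmu3]
    exact MulChar.one_apply (hunit y hyd)
  -- the multiplicativity
  have hmul : ∀ x y : Eis, mu (Ideal.Quotient.mk _ (x * y)) =
      mu (Ideal.Quotient.mk _ x) * mu (Ideal.Quotient.mk _ y) := fun x y => by
    rw [map_mul, map_mul]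
  have hpw : ∀ (x : Eis) (n : ℕ), mu (Ideal.Quotient.mk _ (x ^ n)) =
      mu (Ideal.Quotient.mk _ x) ^ n := fun x n => by
    rw [map_pow, map_pow]
  have hcg : cs ρ g₀ ≠ 0 := fun h0 => hg1 ((happ g₀).symm.trans (hcube g₀ hg₀ h0))
  -- a generator with symbol one
  obtain ⟨g, hg, hgs⟩ : ∃ g : Eis, ¬ ρ ∣ g ∧ cs ρ g = 1 := by
    refine ⟨g₀ ^ (cs ρ g₀).val, fun h1 => hg₀ (h.prime.dvd_of_dvd_pow h1), ?_⟩
    rw [Rec.cs_pow h.prime h.norm hg₀, ZMod.natCast_zmod_val]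
    exact (by decide : ∀ x : ZMod 3, x ≠ 0 → x * x = 1) _ hcg
  have hg3 : mu (Ideal.Quotient.mk _ g) ^ 3 = 1 := by
    rw [← MulChar.pow_apply' mu (by norm_num), hmu3]
    exact MulChar.one_apply (hunit g hg)
  have hpw3 : omega ^ 3 = 1 := by rw [omega_eq]; exact Fin.toC_w_cube
  have hprim : IsPrimitiveRoot omega 3 := by rw [omega_eq]; exact Fin.prim_w
  obtain ⟨i, hi, hi2⟩ := hprim.eq_pow_of_pow_eq_one hg3
  refine ⟨(i : ZMod 3), ?_, ?_⟩
  · intro h0
    have hi0 : i = 0 := by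
      rw [ZMod.natCast_eq_zero_iff] at h0
      omega
    rw [hi0, pow_zero] at hi2
    apply hg1
    -- `g₀ * g ^ (3 - c)` is a cube
    set c := cs ρ g₀ with hc
    have hd : ¬ ρ ∣ g₀ * g ^ (-c).val := fun h1 => (h.prime.dvd_or_dvd h1).elim hg₀
      (fun h2 => hg (h.prime.dvd_of_dvd_pow h2))
    have h5 := hcube (g₀ * g ^ (-c).val) hd (by
      rw [Rec.cs_mul h.prime h.norm hg₀ (fun h2 => hg (h.prime.dvd_of_dvd_pow h2)),
        Rec.cs_pow h.prime h.norm hg, hgs, ZMod.natCast_zmod_val, ← hc]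
      ring)
    rw [hmul, hpw, ← hi2, one_pow, mul_one] at h5
    exact (happ g₀).symm.trans h5
  · intro x hx
    rw [← happ, sy_eq]
    set c := cs ρ x with hc
    have hd : ¬ ρ ∣ x * g ^ (-c).val := fun h1 => (h.prime.dvd_or_dvd h1).elim hx
      (fun h2 => hg (h.prime.dvd_of_dvd_pow h2))
    have h5 := hcube (x * g ^ (-c).val) hd (by
      rw [Rec.cs_mul h.prime h.norm hx (fun h2 => hg (h.prime.dvd_of_dvd_pow h2)),
        Rec.cs_pow h.prime h.norm hg, hgs, ZMod.natCast_zmod_val, ← hc]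
      ring)
    rw [hmul, hpw, ← hi2] at h5
    have h6 : ((omega ^ i) ^ (-c).val) * omega ^ ((i : ZMod 3) * c).val = 1 := by
      rw [← pow_mul, ← pow_add]
      have h7 : 3 ∣ i * (-c).val + ((i : ZMod 3) * c).val := by
        rw [← ZMod.natCast_eq_zero_iff]
        push_cast
        rw [ZMod.natCast_zmod_val, ZMod.natCast_zmod_val]
        ring
      obtain ⟨d, hd⟩ := h7
      rw [hd, pow_mul, hpw3, one_pow]
    have h8 : (omega ^ i) ^ (-c).val ≠ 0 := by
      intro h9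
      rw [h9, zero_mul] at h6
      exact zero_ne_one h6
    apply mul_right_cancel₀ h8
    rw [h5, mul_comm, h6]

end T2h16.TT
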