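import Pool.Agent.Q283.TC.Gal

/-!
# Independence of cube roots over cyclotomic fields
-/

set_option autoImplicit false
set_option linter.unusedSectionVars false
set_option linter.style.haveILetI false

namespace T2h16.TT

open NumberField Finset
open Pool.Agent.Y692.QS (Ei w nr hom hom_apply hom_w w_cube mul_star nr_nonneg nr_zero_iff)
open Q283.TC (zL z_cube hom_inj0 ar ar_of ar_spec ar_mul HH mem_HH cube_of_fixed Dat zp_add)
open scoped IntermediateField

/-- independence modulo cubes -/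
structure Ind (P : Finset Ei) : Prop where
  w0 : w ∉ P
  n0 : ∀ q ∈ P, q ≠ 0
  ind : ∀ (lam : Ei → ZMod 3) (t : Ei),
    t ^ 3 = w ^ (lam w).val * ∏ q ∈ P, q ^ (lam q).val → lam w = 0 ∧ ∀ q ∈ P, lam q = 0

theorem w_unit' : IsUnit (w : Ei) := by
  rw [Pool.Agent.Y692.QS.isUnit_iff]; decide

/-- pairwise non-associated primes -/
theorem indep (P : Finset Ei) (hP : ∀ q ∈ P, Prime q)
    (hne : ∀ q ∈ P, ∀ r ∈ P, q ∣ r → q = r) : Ind P := by
  refine ⟨fun h => (hP w h).not_isUnit w_unit', fun q hq => (hP q hq).ne_zero, ?_⟩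
  intro lam t h
  have hw := w_unit'
  have h1 : ∀ q ∈ P, lam q = 0 := by
    intro q hq
    by_contra hne0
    have hpr := hP q hq
    have hlt : (lam q).val < 3 := ZMod.val_lt _
    have hpos : (lam q).val ≠ 0 := by
      intro h0
      exact hne0 ((ZMod.val_eq_zero _).1 h0)
    rw [← Finset.mul_prod_erase P _ hq] at h
    have h2 : q ∣ t ^ 3 := by
      rw [h]
      exact Dvd.dvd.mul_left (Dvd.dvd.mul_right (dvd_pow_self q hpos) _) _
    have h3 : q ^ 3 ∣ t ^ 3 := pow_dvd_pow_of_dvd (hpr.dvd_of_dvd_pow h2) 3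
    rw [h] at h3
    have h4 : q ^ (lam q).val * q ∣ q ^ (lam q).val * (w ^ (lam w).val *
        ∏ r ∈ P.erase q, r ^ (lam r).val) := by
      rw [← pow_succ]
      refine (pow_dvd_pow q (by omega : (lam q).val + 1 ≤ 3)).trans (h3.trans ?_)
      refine dvd_of_eq ?_
      ring
    have h5 := (mul_dvd_mul_iff_left (pow_ne_zero _ hpr.ne_zero)).1 h4
    rcases hpr.dvd_or_dvd h5 with h6 | h6
    · exact hpr.not_isUnit (isUnit_of_dvd_unit h6 (hw.pow _))
    · obtain ⟨r, hr, hd⟩ := (hpr.dvd_finsetProd_iff _).1 h6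
      rw [Finset.mem_erase] at hr
      exact hr.1 (hne q hq r hr.2 (hpr.dvd_of_dvd_pow hd)).symm
  refine ⟨?_, h1⟩
  have h2 : ∏ q ∈ P, q ^ (lam q).val = 1 := by
    apply Finset.prod_eq_one
    intro q hq
    rw [h1 q hq, ZMod.val_zero, pow_zero]
  rw [h2, mul_one] at h
  have h3 : IsUnit t := by
    have : IsUnit (t ^ 3) := by rw [h]; exact hw.pow _
    exact (isUnit_pow_iff (by norm_num)).1 this
  obtain ⟨c, hc | hc⟩ := Pool.Agent.Y715.T.RecC.unit_form h3
  · rw [hc] at h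
    exact (by decide : ∀ c x : ZMod 3, ((w : Ei) ^ c.val) ^ 3 = w ^ x.val → x = 0) c (lam w) h
  · rw [hc] at h
    exact (by decide : ∀ c x : ZMod 3, (-(w : Ei) ^ c.val) ^ 3 = w ^ x.val → x = 0) c (lam w) h

section
variable {L : Type} [Field L] [NumberField L] [IsGalois ℚ L] {P : Finset Ei} (E : Dat L P)
  (hI : Ind P)

include hI in
theorem s0 {q : Ei} (h : q ∈ P) : E.s q ≠ 0 := by
  intro h0
  have h1 := E.hs q h
  rw [h0, zero_pow (by norm_num)] at h1
  exact hI.n0 q h (hom_inj0 E.hZ h1.symm)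

/-- the homomorphism to the symbols -/
noncomputable def Psi : HH E.Z →* Multiplicative ((P → ZMod 3) × ZMod 3) where
  toFun g := Multiplicative.ofAdd (fun q : P => ar E.Z g.1 (E.s (q : Ei)), ar E.Z g.1 (E.s w))
  map_one' := by
    have h : ∀ x : 𝓞 L, x ≠ 0 → ar E.Z (1 : Gal(L/ℚ)) x = 0 := fun x hx => by
      apply ar_of E.hZ hx
      rw [one_smul, ZMod.val_zero, pow_zero, one_mul]
    rw [← ofAdd_zero]
    congr 1
    refine Prod.ext ?_ ?_
    · funext q
      exact h _ (s0 E hI q.2)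
    · exact h _ E.w0
  map_mul' g h := by
    rw [← ofAdd_add]
    congr 1
    refine Prod.ext ?_ ?_
    · funext q
      exact ar_mul E.hZ g.2 h.2 (s0 E hI q.2) (E.hs q q.2)
    · exact ar_mul E.hZ g.2 h.2 E.w0 E.hw

theorem surj : Function.Surjective (Psi E hI) := by
  classical
  set W : AddSubgroup ((P → ZMod 3) × ZMod 3) :=
    { carrier := {x | ∃ g, Psi E hI g = Multiplicative.ofAdd x}
      add_mem' := by
        rintro a b ⟨g, hg⟩ ⟨g', hg'⟩
        exact ⟨g * g', by rw [map_mul, hg, hg', ofAdd_add]⟩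
      zero_mem' := ⟨1, by rw [map_one, ofAdd_zero]⟩
      neg_mem' := by
        rintro a ⟨g, hg⟩
        exact ⟨g⁻¹, by rw [map_inv, hg, ofAdd_neg]⟩ } with hW
  have hmemW : ∀ x, x ∈ W ↔ ∃ g, Psi E hI g = Multiplicative.ofAdd x := fun x => Iff.rfl
  haveI : Fact (Nat.Prime 3) := ⟨Nat.prime_three⟩
  set V : Submodule (ZMod 3) ((P → ZMod 3) × ZMod 3) := AddSubgroup.toZModSubmodule 3 W with hV
  have hmemV : ∀ x, x ∈ V ↔ ∃ g, Psi E hI g = Multiplicative.ofAdd x := fun x => Iff.rfl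
  have htop : V = ⊤ := by
    by_contra hne
    obtain ⟨f, hf0, hf⟩ := Submodule.exists_le_ker_of_lt_top V (lt_top_iff_ne_top.2 hne)
    set lam : Ei → ZMod 3 := fun q => if h : q ∈ P then f (Pi.single ⟨q, h⟩ 1, 0) else
      if q = w then f (0, 1) else 0 with hlam
    have hlw : lam w = f (0, 1) := by
      rw [hlam]
      simp only
      rw [dif_neg hI.w0]
      simp
    have hlq : ∀ q : P, lam (q : Ei) = f (Pi.single q 1, 0) := by
      intro q
      rw [hlam]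
      simp only
      rw [dif_pos q.2]
    have hfx : ∀ (v : P → ZMod 3) (e : ZMod 3), f (v, e) = ∑ q : P, v q * lam (q : Ei) + e * lam w := by
      intro v e
      have h1 : ((v, e) : (P → ZMod 3) × ZMod 3) = ∑ q : P, v q • ((Pi.single q 1 : P → ZMod 3),
          (0 : ZMod 3)) + e • ((0 : P → ZMod 3), (1 : ZMod 3)) := by
        refine Prod.ext ?_ ?_
        · funext r
          simp [Prod.fst_sum, Finset.sum_apply, Pi.single_apply]
        · simp [Prod.snd_sum]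
      rw [h1, map_add, map_sum, map_smul, smul_eq_mul, hlw]
      congr 1
      refine Finset.sum_congr rfl fun q _ => ?_
      rw [map_smul, smul_eq_mul, hlq]
    set x : 𝓞 L := E.s w ^ (lam w).val * ∏ q ∈ P, E.s q ^ (lam q).val with hx
    have hfix : ∀ g ∈ HH E.Z, g • x = x := by
      intro g hg
      have h1 : f (fun q : P => ar E.Z g (E.s (q : Ei)), ar E.Z g (E.s w)) = 0 :=
        hf ((hmemV _).2 ⟨⟨g, hg⟩, rfl⟩)
      rw [hfx] at h1
      have hs : ∀ q ∈ P, g • E.s q = E.Z ^ (ar E.Z g (E.s q)).val * E.s q :=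
        fun q hq => ar_spec E.hZ hg (E.hs q hq)
      have hsw : g • E.s w = E.Z ^ (ar E.Z g (E.s w)).val * E.s w := ar_spec E.hZ hg E.hw
      have h2 : g • x = E.Z ^ ((ar E.Z g (E.s w)).val * (lam w).val +
          ∑ q ∈ P, (ar E.Z g (E.s q)).val * (lam q).val) * x := by
        rw [hx, smul_mul', smul_pow', hsw, Finset.smul_prod']
        have h3 : ∏ q ∈ P, g • E.s q ^ (lam q).val =
            (∏ q ∈ P, E.Z ^ ((ar E.Z g (E.s q)).val * (lam q).val)) *
              ∏ q ∈ P, E.s q ^ (lam q).val := by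
          rw [← Finset.prod_mul_distrib]
          refine Finset.prod_congr rfl fun q hq => ?_
          rw [smul_pow', hs q hq, mul_pow, ← pow_mul]
        rw [h3, Finset.prod_pow_eq_pow_sum, mul_pow, ← pow_mul, pow_add]
        ring
      have h4 : 3 ∣ ((ar E.Z g (E.s w)).val * (lam w).val +
          ∑ q ∈ P, (ar E.Z g (E.s q)).val * (lam q).val) := by
        rw [← ZMod.natCast_eq_zero_iff]
        push_cast
        simp only [ZMod.natCast_val, ZMod.cast_id', id_eq]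
        rw [← h1, add_comm, ← Finset.sum_coe_sort P
          (fun q => ar E.Z g (E.s q) * lam q)]
      obtain ⟨k, hk⟩ := h4
      have hZ3 : E.Z ^ 3 = 1 := by
        apply RingOfIntegers.coe_injective
        show algebraMap (𝓞 L) L _ = algebraMap (𝓞 L) L _
        rw [map_pow, map_one]
        exact z_cube (zL E.hZ)
      rw [h2, hk, pow_mul, hZ3, one_pow, one_mul]
    have hcube : x ^ 3 = hom E.Z E.hZ (w ^ (lam w).val * ∏ q ∈ P, q ^ (lam q).val) := by
      rw [hx, mul_pow, map_mul, map_pow, map_prod, ← E.hw, ← Finset.prod_pow, ← pow_mul, ← pow_mul,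
        mul_comm (lam w).val 3]
      congr 1
      refine Finset.prod_congr rfl fun q hq => ?_
      rw [map_pow, ← E.hs q hq, ← pow_mul, ← pow_mul, mul_comm]
    obtain ⟨t, ht⟩ := cube_of_fixed E.hZ hfix hcube
    obtain ⟨h5, h6⟩ := hI.ind lam t ht
    apply hf0
    apply LinearMap.ext
    rintro ⟨v, e⟩
    rw [hfx, h5, mul_zero, add_zero, LinearMap.zero_apply]
    apply Finset.sum_eq_zero
    intro q _
    rw [h6 q q.2, mul_zero]
  intro x
  have : Multiplicative.toAdd x ∈ V := by rw [htop]; exact Submodule.mem_top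
  exact (hmemV _).1 this

end

/-! ### The cyclotomic part -/

section cyc

variable {L : Type} [Field L] [NumberField L] [IsGalois ℚ L] {P : Finset Ei}

/-- the data with a root of unity of order `3 ^ (k + 1)` -/
structure DatC (L : Type) [Field L] [NumberField L] [IsGalois ℚ L] (P : Finset Ei)
    (k : ℕ) extends Dat L P where
  ζ : 𝓞 L
  hζ : IsPrimitiveRoot ζ (3 ^ (k + 1))
  hZζ : Z = ζ ^ 3 ^ k
  hwζ : s w = ζ ^ 3 ^ (k - 1)

/-- the automorphisms fixing the root of unity -/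
def KK {L : Type} [Field L] [NumberField L] [IsGalois ℚ L] (ζ : 𝓞 L) : Subgroup Gal(L/ℚ) where
  carrier := {g | g • ζ = ζ}
  mul_mem' := by
    intro a b ha hb
    show (a * b) • ζ = ζ
    rw [mul_smul, show b • ζ = ζ from hb, show a • ζ = ζ from ha]
  one_mem' := one_smul _ _
  inv_mem' := by
    intro a ha
    show a⁻¹ • ζ = ζ
    rw [inv_smul_eq_iff]
    exact (show a • ζ = ζ from ha).symm

theorem mem_KK {ζ : 𝓞 L} {g : Gal(L/ℚ)} : g ∈ KK ζ ↔ g • ζ = ζ := Iff.rfl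

variable {k : ℕ} (D : DatC L P k)

theorem DatC.le : KK D.ζ ≤ HH D.Z := by
  intro g hg
  rw [mem_HH, D.hZζ, smul_pow', mem_KK.1 hg]

/-- the powers of the root of unity -/
theorem DatC.exists_pow (g : Gal(L/ℚ)) : ∃ a : ℕ, 1 ≤ a ∧ g • D.ζ = D.ζ ^ a := by
  have h1 : (g • D.ζ) ^ 3 ^ (k + 1) = 1 := by
    rw [← smul_pow', D.hζ.pow_eq_one, smul_one]
  obtain ⟨a, -, ha⟩ := D.hζ.eq_pow_of_pow_eq_one h1
  refine ⟨a + 3 ^ (k + 1), le_add_left (Nat.one_le_pow _ _ (by norm_num)), ?_⟩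
  rw [pow_add, D.hζ.pow_eq_one, mul_one, ha]

theorem ne_zero_of_prim {R : Type*} [CommRing R] [IsDomain R] {z : R} {n : ℕ} (hn : n ≠ 0)
    (h : IsPrimitiveRoot z n) : z ≠ 0 := by
  rintro rfl
  have := h.pow_eq_one
  rw [zero_pow hn] at this
  exact zero_ne_one this

/-- powers -/
theorem three_pow_form {y : ℤ} (hy : (3 : ℤ) ∣ y - 1) (hy9 : ¬ (9 : ℤ) ∣ y - 1) (j : ℕ) :
    ∃ u : ℤ, ¬ (3 : ℤ) ∣ u ∧ y ^ 3 ^ j = 1 + 3 ^ (j + 1) * u := by
  induction j with
  | zero =>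
    obtain ⟨u, hu⟩ := hy
    refine ⟨u, ?_, ?_⟩
    · rintro ⟨v, rfl⟩
      exact hy9 ⟨v, by rw [hu]; ring⟩
    · rw [pow_zero, pow_one, zero_add]
      linarith
  | succ j ih =>
    obtain ⟨u, hu, h⟩ := ih
    refine ⟨u + 3 * (3 ^ j * u ^ 2 + 3 ^ (j + j) * u ^ 3), ?_, ?_⟩
    · intro hd
      exact hu ((dvd_add_left (dvd_mul_right _ _)).1 hd)
    · rw [pow_succ, pow_mul, h]
      have e1 : (3 : ℤ) ^ (j + 1) = 3 * 3 ^ j := by rw [pow_add]; ring
      have e2 : (3 : ℤ) ^ (j + 1 + 1) = 9 * 3 ^ j := by rw [pow_add, pow_succ]; ring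
      have e3 : (3 : ℤ) ^ (j + j) = 3 ^ j * 3 ^ j := by rw [pow_add]
      rw [e1, e2, e3]
      ring

/-- a number that is `1` modulo three and not modulo nine generates -/
theorem exists_pow_one {x y : ℤ} (hx : (3 : ℤ) ∣ x - 1) (hy : (3 : ℤ) ∣ y - 1)
    (hy9 : ¬ (9 : ℤ) ∣ y - 1) (r : ℕ) : ∃ n : ℕ, (3 : ℤ) ^ (r + 1) ∣ x * y ^ n - 1 := by
  induction r with
  | zero => exact ⟨0, by rw [pow_zero, mul_one, zero_add, pow_one]; exact hx⟩
  | succ r ih =>
    obtain ⟨n, c, hc⟩ := ih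
    obtain ⟨u, hu, h⟩ := three_pow_form hy hy9 r
    obtain ⟨i, hi⟩ : ∃ i : ℕ, (3 : ℤ) ∣ c + i * u := by
      have h3 : u % 3 = 1 ∨ u % 3 = 2 := by omega
      have h4 : c % 3 = 0 ∨ c % 3 = 1 ∨ c % 3 = 2 := by omega
      rcases h3 with h3 | h3 <;> rcases h4 with h4 | h4 | h4
      · exact ⟨0, by push_cast; omega⟩
      · exact ⟨2, by push_cast; omega⟩
      · exact ⟨1, by push_cast; omega⟩
      · exact ⟨0, by push_cast; omega⟩
      · exact ⟨1, by push_cast; omega⟩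
      · exact ⟨2, by push_cast; omega⟩
    have hpow : ∀ i : ℕ, ∃ t : ℤ, (1 + 3 ^ (r + 1) * u) ^ i = 1 + 3 ^ (r + 1) * (i * u) +
        3 ^ (r + 2) * t := by
      intro i
      induction i with
      | zero => exact ⟨0, by simp⟩
      | succ i ih =>
        obtain ⟨t, ht⟩ := ih
        refine ⟨t + 3 ^ r * (i * u * u) + 3 ^ (r + 1) * t * u, ?_⟩
        rw [pow_succ, ht]
        have e1 : (3 : ℤ) ^ (r + 1) = 3 * 3 ^ r := by rw [pow_add]; ring
        have e2 : (3 : ℤ) ^ (r + 2) = 9 * 3 ^ r := by rw [pow_add]; ring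
        rw [e1, e2]
        push_cast
        ring
    obtain ⟨t, ht⟩ := hpow i
    obtain ⟨d, hd⟩ := hi
    refine ⟨n + 3 ^ r * i, d + t + 3 ^ r * (c * (i * u)) + 3 ^ (r + 1) * c * t, ?_⟩
    have h1 : x * y ^ n = 1 + 3 ^ (r + 1) * c := by linarith
    rw [pow_add, pow_mul, h, ht, ← mul_assoc, h1]
    have e1 : (3 : ℤ) ^ (r + 1) = 3 * 3 ^ r := by rw [pow_add]; ring
    have e2 : (3 : ℤ) ^ (r + 2) = 9 * 3 ^ r := by rw [pow_add]; ring
    rw [e1, e2]
    linear_combination (3 * 3 ^ r) * hd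

variable (hk : 1 ≤ k)

include hk

/-- the exponent is `1` modulo three -/
theorem DatC.mod_three {g : Gal(L/ℚ)} (hg : g ∈ HH D.Z) {a : ℕ} (ha1 : 1 ≤ a)
    (ha : g • D.ζ = D.ζ ^ a) : (3 : ℤ) ∣ (a : ℤ) - 1 := by
  have hζ0 := ne_zero_of_prim (by positivity) D.hζ
  have h2 : g • D.Z = D.Z := hg
  rw [D.hZζ, smul_pow', ha, ← pow_mul] at h2
  have h3 : D.ζ ^ (3 ^ k * (a - 1)) = 1 := by
    have e : a * 3 ^ k = 3 ^ k * (a - 1) + 3 ^ k := by
      obtain ⟨b, rfl⟩ : ∃ b, a = b + 1 := ⟨a - 1, by omega⟩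
      rw [Nat.add_sub_cancel]
      ring
    rw [e, pow_add] at h2
    exact mul_right_cancel₀ (pow_ne_zero _ hζ0) (by rw [h2, one_mul])
  have h4 := D.hζ.dvd_of_pow_eq_one _ h3
  rw [pow_succ] at h4
  have h5 : 3 ∣ a - 1 := Nat.dvd_of_mul_dvd_mul_left (by positivity) h4
  omega

theorem DatC.not_nine {g : Gal(L/ℚ)} (hg : ar D.Z g (D.s w) ≠ 0) {a : ℕ} (ha1 : 1 ≤ a)
    (ha : g • D.ζ = D.ζ ^ a) : ¬ (9 : ℤ) ∣ (a : ℤ) - 1 := by
  intro h9
  apply hg
  apply ar_of D.hZ D.w0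
  rw [ZMod.val_zero, pow_zero, one_mul]
  obtain ⟨b, hb⟩ : ∃ b : ℕ, a = 9 * b + 1 := ⟨(a - 1) / 9, by omega⟩
  rw [D.hwζ, smul_pow', ha, ← pow_mul, hb]
  have e : (9 * b + 1) * 3 ^ (k - 1) = 3 ^ (k + 1) * b + 3 ^ (k - 1) := by
    have e1 : 3 ^ (k + 1) = 3 ^ (k - 1) * 9 := by
      have : k + 1 = (k - 1) + 2 := by omega
      rw [this, pow_add]
      norm_num
    rw [e1]
    ring
  rw [e, pow_add, pow_mul, D.hζ.pow_eq_one, one_pow, one_mul]

/-- an automorphism that moves the ninth root of unity generates the group of the root of unity -/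
theorem DatC.generate {h : Gal(L/ℚ)} (hh : h ∈ HH D.Z) (h1 : ar D.Z h (D.s w) ≠ 0)
    {g : Gal(L/ℚ)} (hg : g ∈ HH D.Z) : ∃ n : ℕ, g * h ^ n ∈ KK D.ζ := by
  obtain ⟨x, hx1, hx⟩ := D.exists_pow g
  obtain ⟨y, hy1, hy⟩ := D.exists_pow h
  obtain ⟨n, hn⟩ := exists_pow_one (D.mod_three hk hg hx1 hx) (D.mod_three hk hh hy1 hy)
    (D.not_nine hk h1 hy1 hy) k
  refine ⟨n, ?_⟩
  have hpow : ∀ n : ℕ, h ^ n • D.ζ = D.ζ ^ y ^ n := by
    intro n
    induction n with
    | zero => rw [pow_zero, pow_zero, pow_one, one_smul]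
    | succ n ih => rw [pow_succ, mul_smul, hy, smul_pow', ih, ← pow_mul, pow_succ]
  rw [mem_KK, mul_smul, hpow, smul_pow', hx, ← pow_mul]
  have h3 : 1 ≤ x * y ^ n := Nat.one_le_iff_ne_zero.2
    (Nat.mul_ne_zero (by omega) (pow_ne_zero _ (by omega)))
  have h2 : 3 ^ (k + 1) ∣ x * y ^ n - 1 := by
    zify [h3]
    exact hn
  obtain ⟨c, hc⟩ := h2
  have h4 : x * y ^ n = 3 ^ (k + 1) * c + 1 := by omega
  rw [h4, pow_add, pow_mul, D.hζ.pow_eq_one, one_pow, one_mul, pow_one]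

/-- the symbols over the field of the root of unity -/
noncomputable def DatC.Th (hI : Ind P) : KK D.ζ →* Multiplicative (P → ZMod 3) where
  toFun g := Multiplicative.ofAdd (Multiplicative.toAdd (Psi D.toDat hI ⟨g.1, D.le g.2⟩)).1
  map_one' := by
    have : (⟨(1 : KK D.ζ).1, D.le (1 : KK D.ζ).2⟩ : HH D.Z) = 1 := rfl
    rw [this, map_one]
    rfl
  map_mul' g h := by
    have : (⟨(g * h).1, D.le (g * h).2⟩ : HH D.Z) =
      ⟨g.1, D.le g.2⟩ * ⟨h.1, D.le h.2⟩ := rfl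
    rw [this, map_mul]
    rfl

theorem DatC.surjTh (hI : Ind P) : Function.Surjective (D.Th hI) := by
  intro v
  obtain ⟨g, hg⟩ := surj D.toDat hI (Multiplicative.ofAdd (Multiplicative.toAdd v, 0))
  obtain ⟨h, hh⟩ := surj D.toDat hI (Multiplicative.ofAdd (0, 1))
  have h1 : ar D.Z h.1 (D.s w) = 1 := by
    have := congrArg (fun x => (Multiplicative.toAdd x).2) hh
    exact this
  obtain ⟨n, hn⟩ := D.generate hk h.2 (by rw [h1]; decide) g.2
  have h2 : Psi D.toDat hI (g * h ^ n) =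
      Multiplicative.ofAdd (Multiplicative.toAdd v, (n : ZMod 3)) := by
    rw [map_mul, map_pow, hg, hh, ← ofAdd_nsmul, ← ofAdd_add]
    congr 1
    refine Prod.ext ?_ ?_
    · simp
    · simp
  refine ⟨⟨(g * h ^ n : HH D.Z).1, hn⟩, ?_⟩
  have h3 : D.Th hI ⟨(g * h ^ n : HH D.Z).1, hn⟩ =
    Multiplicative.ofAdd (Multiplicative.toAdd (Psi D.toDat hI (g * h ^ n))).1 := rfl
  rw [h3, h2]
  rfl

theorem DatC.ratio (hI : Ind P) (Q : (P → ZMod 3) → Prop) :
    (Nat.card {g : KK D.ζ // Q (Multiplicative.toAdd (D.Th hI g))} : ℝ) /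
      (Nat.card (KK D.ζ) : ℝ) =
      (Nat.card {x : P → ZMod 3 // Q x} : ℝ) / 3 ^ P.card := by
  have hsur := D.surjTh hk hI
  have h1 := Pool.Agent.W401.Cheb.card_fib (D.Th hI) (fun b => Q (Multiplicative.toAdd b))
    (fun b _ => hsur b)
  have h2 := Pool.Agent.W401.Cheb.card_fib (D.Th hI) (fun _ => True) (fun b _ => hsur b)
  have h3 : Nat.card {a : KK D.ζ // True} = Nat.card (KK D.ζ) :=
    Nat.card_congr (Equiv.subtypeUnivEquiv fun _ => trivial)
  have h4 : Nat.card {b : Multiplicative (P → ZMod 3) // True} = 3 ^ P.card := by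
    have : Nat.card (P → ZMod 3) = 3 ^ P.card := by
      rw [Nat.card_fun]
      simp
    rw [← this]
    exact Nat.card_congr (Equiv.subtypeUnivEquiv fun _ => trivial)
  have h5 : Nat.card {b : Multiplicative (P → ZMod 3) // Q (Multiplicative.toAdd b)} =
      Nat.card {x : P → ZMod 3 // Q x} := rfl
  rw [h3, h4] at h2
  rw [h5] at h1
  rw [h1, h2]
  have hk : 0 < Nat.card (D.Th hI).ker := Nat.card_pos
  push_cast
  have hk' : (Nat.card (D.Th hI).ker : ℝ) ≠ 0 := by positivity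
  field_simp

end cyc

end T2h16.TT
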