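import Mathlib
import Pool.Agent.Y715.T.St

/-!
# Definitions for the theorem on twists by one more Eisenstein prime

The basic definitions (`L`-functions, the group `A(K)`, cocycles) are in `Pool.Agent.Y715.T.St`.
-/

set_option autoImplicit false

namespace T2h16.TT.St

open WeierstrassCurve Pool.Agent.Y715.T.St
open scoped Classical

/-- The Eisenstein primes that are `1` modulo `3` and whose norm is `1` modulo `3 ^ (k + 1)`. -/
def Adm (k : ℕ) (ρ : Eis) : Prop :=
  Prime ρ ∧ (3 : Eis) ∣ ρ - 1 ∧ (3 : ℤ) ^ (k + 1) ∣ nrm ρ - 1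

/-- The cubic residue symbol of `x` modulo the prime `π` is `w ^ sy π x`: `x ^ ((N π - 1) / 3)` is
`w ^ sy π x` modulo `π`. (The value is `0` if `x` is divisible by `π`.) -/
noncomputable def sy (π x : Eis) : ZMod 3 :=
  if h : ∃ c : ZMod 3, π ∣ x ^ (((nrm π).natAbs - 1) / 3) - ⟨0, 1⟩ ^ c.val then h.choose else 0

/-- `lam ^ 3 ^ (k - 1)` is the `e`-th power of the cubic residue symbol modulo `π`. -/
def IsExp (k : ℕ) {π : Eis} (lam : MulChar (Eis ⧸ Ideal.span {π}) ℂ) (e : ZMod 3) : Prop :=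
  ∀ x : Eis, ¬ π ∣ x → lam (Ideal.Quotient.mk _ x) ^ 3 ^ (k - 1) = omega ^ (e * sy π x).val

/-- The Laplacian over the field with three elements of the cubic residue symbols, with the weights
`e`. -/
noncomputable def lap {m : ℕ} (π : Fin m → Eis) (e : Fin m → ZMod 3) :
    Matrix (Fin m) (Fin m) (ZMod 3) :=
  Matrix.of fun j i =>
    if j = i then -∑ l ∈ Finset.univ.erase j, e l * sy (π j) (π l) else e i * sy (π j) (π i)

/-- The new primes `ρ` for the weight `e'`: the Laplacian becomes nonsingular when `e'` times the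
symbols of the `π j` modulo `ρ` are subtracted from the diagonal, and the product of all primes with
their weights as exponents is not `1` modulo `9`. -/
def Good {m : ℕ} (k : ℕ) (π : Fin m → Eis) (e : Fin m → ZMod 3) (e' : ZMod 3) (ρ : Eis) : Prop :=
  Adm k ρ ∧ (∀ j, ρ ≠ π j) ∧
    (lap π e - Matrix.diagonal fun j => e' * sy ρ (π j)).det ≠ 0 ∧
    ¬ (9 : Eis) ∣ (∏ j, π j ^ (e j).val) * ρ ^ e'.val - 1

/-- The number of the `ρ` of norm at most `X` with the property `T`. -/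
noncomputable def count (T : Eis → Prop) (X : ℕ) : ℕ :=
  {ρ : Eis | T ρ ∧ nrm ρ ≤ X}.ncard

/-- The statement on the twist by the product of the characters `lam j`: the `L`-functions are
entire, their values at `1` are `Ω (1 - ζ) ^ (m - 1)` up to units above `3`, so that
`L(B, 1) = Ω ^ (2 * 3 ^ (k - 1)) 3 ^ (m - 1)` up to such a unit; `A(K)` has order `3` and
the `3`-primary part of `Ш(A / K)` is zero. -/
def Concl (k m : ℕ) (π : Fin m → Eis)
    (lam : ∀ j, MulChar (Eis ⧸ Ideal.span {π j}) ℂ) (ζ : ℂ) : Prop :=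
  (∃ F : ℕ → ℂ → ℂ, (∀ t, ¬ 3 ∣ t → IsLFunction lam t (F t)) ∧
      (∀ t, ¬ 3 ∣ t → ∃ u, ThreeUnit u ∧ F t 1 = Omega * (1 - ζ) ^ (m - 1) * u) ∧
      ∃ u, ThreeUnit u ∧ LA k F 1 = (Omega : ℂ) ^ (2 * 3 ^ (k - 1)) * 3 ^ (m - 1) * u) ∧
    ∀ (i₀ : QBar), i₀ ^ 2 + i₀ + 1 = 0 → ∀ a : GalK i₀ → ZMod (3 ^ k), Corresponds ζ lam a →
      (∃ (T : Pts QBar) (h : (E.baseChange QBar).toAffine.Nonsingular 0 0),
        T = .some 0 0 h ∧ pointsK a = {0, fun _ => T, fun _ => -T}) ∧
      ∀ (f : GalK i₀ → ZMod (3 ^ k) → Pts QBar) (n : ℕ), IsCocycle a f → LocallyTrivial a f →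
        IsCoboundary a (fun σ => (3 ^ n) • f σ) → IsCoboundary a f

end T2h16.TT.St
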